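import Mathlib
import Pool.Graph.R_seed8.H57R3.VJ.G

/-!
# Linear relations and special points
-/

set_option autoImplicit false

open NumberField Height Finset
open scoped Classical

namespace Pool.Agent.H84.VH

open Pool.Agent.H57R3.VJ

variable {K : Type*} [Field K] {n r : ℕ}

/-- the linear form as a linear map -/
def linM (b : Fin (n + 1) → K) : (Fin (n + 1) → K) →ₗ[K] K where
  toFun x := lin b x
  map_add' x y := by simp [lin, mul_add, sum_add_distrib]
  map_smul' c x := by
    simp only [lin, Pi.smul_apply, smul_eq_mul, RingHom.id_apply, mul_sum]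
    exact sum_congr rfl fun i _ => by ring

@[simp] lemma linM_apply (b x : Fin (n + 1) → K) : linM b x = lin b x := rfl

lemma linM_sum {ι : Type*} (s : Finset ι) (c : ι → K) (a : ι → Fin (n + 1) → K) :
    linM (∑ i ∈ s, c i • a i) = ∑ i ∈ s, c i • linM (a i) := by
  ext x
  simp only [linM_apply, lin, Finset.sum_apply, Pi.smul_apply, smul_eq_mul, LinearMap.coe_comp,
    Function.comp_apply, LinearMap.coe_single, LinearMap.sum_apply, LinearMap.smul_apply, sum_mul,
    mul_sum, mul_assoc]
  rw [sum_comm]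

lemma lin_sum {ι : Type*} (s : Finset ι) (c : ι → K) (a : ι → Fin (n + 1) → K)
    (x : Fin (n + 1) → K) : lin (∑ i ∈ s, c i • a i) x = ∑ i ∈ s, c i * lin (a i) x := by
  have := congrArg (fun f => f x) (linM_sum s c a)
  simpa using this

lemma exists_form (φ : (Fin (n + 1) → K) →ₗ[K] K) : ∃ b : Fin (n + 1) → K, linM b = φ := by
  refine ⟨fun j => φ (Pi.single j 1), ?_⟩
  apply LinearMap.pi_ext'
  intro j
  ext
  simp [lin, Pi.single_apply]

lemma lin_inj {b b' : Fin (n + 1) → K} (h : linM b = linM b') : b = b' := by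
  ext j
  have := congrArg (fun f => f (Pi.single j 1)) h
  simpa [lin, Pi.single_apply] using this

/-- a form that vanishes where the forms `a i`, `i ∈ A`, vanish is a combination of them -/
lemma comb_of_ker (a : Fin r → Fin (n + 1) → K) (A : Finset (Fin r)) (b : Fin (n + 1) → K)
    (h : ∀ y, (∀ i ∈ A, lin (a i) y = 0) → lin b y = 0) :
    ∃ d : Fin r → K, b = ∑ i ∈ A, d i • a i := by
  have h1 : linM b ∈ Submodule.span K (Set.range fun i : A => linM (a i)) := by
    apply mem_span_of_iInf_ker_le_ker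
    intro y hy
    rw [LinearMap.mem_ker, linM_apply]
    apply h
    intro i hi
    rw [Submodule.mem_iInf] at hy
    exact hy ⟨i, hi⟩
  rw [Submodule.mem_span_range_iff_exists_fun] at h1
  obtain ⟨c, hc⟩ := h1
  refine ⟨fun i => if h : i ∈ A then c ⟨i, h⟩ else 0, ?_⟩
  apply lin_inj
  rw [← hc, linM_sum, ← sum_coe_sort A]
  apply sum_congr rfl
  intro i _
  simp

/-- finitely many linear relations detect the sum of two strata -/
theorem relations (a : Fin r → Fin (n + 1) → K) (A : Finset (Fin r)) :
    ∃ s : Finset (Fin (n + 1) → K),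
      (∀ b ∈ s, (∃ c : Fin r → K, b = ∑ i ∈ Aᶜ, c i • a i) ∧ ∃ d : Fin r → K, b = ∑ i ∈ A, d i • a i) ∧
      ∀ x, (∀ b ∈ s, lin b x = 0) → ∃ y z, x = y + z ∧ (∀ i ∈ A, lin (a i) y = 0) ∧
        ∀ i ∉ A, lin (a i) z = 0 := by
  set W : Submodule K (Fin (n + 1) → K) :=
    Submodule.span K (Set.range fun i : A => a i) ⊓
      Submodule.span K (Set.range fun i : (Aᶜ : Finset (Fin r)) => a i) with hW
  have hcomb : ∀ (B : Finset (Fin r)) (b : Fin (n + 1) → K),
      b ∈ Submodule.span K (Set.range fun i : B => a i) → ∃ c : Fin r → K, b = ∑ i ∈ B, c i • a i := by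
    intro B b hb
    rw [Submodule.mem_span_range_iff_exists_fun] at hb
    obtain ⟨c, hc⟩ := hb
    refine ⟨fun i => if h : i ∈ B then c ⟨i, h⟩ else 0, ?_⟩
    rw [← hc, ← sum_coe_sort B]
    apply sum_congr rfl
    intro i _
    simp
  have hmem : ∀ (B : Finset (Fin r)) (c : Fin r → K),
      ∑ i ∈ B, c i • a i ∈ Submodule.span K (Set.range fun i : B => a i) := by
    intro B c
    apply Submodule.sum_mem
    intro i hi
    exact Submodule.smul_mem _ _ (Submodule.subset_span ⟨⟨i, hi⟩, rfl⟩)
  obtain ⟨s, hs⟩ : W.FG := IsNoetherian.noetherian W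
  refine ⟨s, ?_, ?_⟩
  · intro b hb
    have hbW : b ∈ W := hs ▸ Submodule.subset_span hb
    exact ⟨hcomb _ b hbW.2, hcomb _ b hbW.1⟩
  · intro x hx
    have hxW : ∀ b ∈ W, lin b x = 0 := by
      intro b hb
      rw [← hs] at hb
      induction hb using Submodule.span_induction with
      | mem b hb => exact hx b hb
      | zero => simp [lin]
      | add b b' _ _ h1 h2 => simp only [lin, Pi.add_apply, add_mul, sum_add_distrib] at *; rw [h1, h2, add_zero]
      | smul c b _ h1 =>
        simp only [lin, Pi.smul_apply, smul_eq_mul, mul_assoc, ← mul_sum] at *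
        rw [h1, mul_zero]
    set U : Submodule K (Fin (n + 1) → K) := ⨅ i : A, LinearMap.ker (linM (a i)) with hU
    set V : Submodule K (Fin (n + 1) → K) :=
      ⨅ i : (Aᶜ : Finset (Fin r)), LinearMap.ker (linM (a i)) with hV
    have hxUV : x ∈ U ⊔ V := by
      by_contra hne
      obtain ⟨φ, hφ1, hφ2⟩ := Submodule.exists_dual_map_eq_bot_of_notMem hne inferInstance
      obtain ⟨b, rfl⟩ := exists_form φ
      have hker : ∀ y ∈ U ⊔ V, lin b y = 0 := by
        intro y hy
        have : linM b y ∈ (U ⊔ V).map (linM b) := Submodule.mem_map_of_mem hy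
        rw [hφ2, Submodule.mem_bot] at this
        exact this
      apply hφ1
      apply hxW
      refine ⟨?_, ?_⟩
      · obtain ⟨d, hd⟩ := comb_of_ker a A b (fun y hy => hker y (Submodule.mem_sup_left (by
          rw [hU, Submodule.mem_iInf]
          intro i
          exact hy i i.2)))
        rw [hd]
        exact hmem A d
      · obtain ⟨d, hd⟩ := comb_of_ker a Aᶜ b (fun y hy => hker y (Submodule.mem_sup_right (by
          rw [hV, Submodule.mem_iInf]
          intro i
          exact hy i i.2)))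
        rw [hd]
        exact hmem Aᶜ d
    obtain ⟨y, hy, z, hz, hyz⟩ := Submodule.mem_sup.1 hxUV
    refine ⟨y, z, hyz.symm, ?_, ?_⟩
    · intro i hi
      rw [hU, Submodule.mem_iInf] at hy
      exact hy ⟨i, hi⟩
    · intro i hi
      rw [hV, Submodule.mem_iInf] at hz
      exact hz ⟨i, mem_compl.2 hi⟩

/-- `x` is on a line that joins a point where the forms `a i`, `i ∈ A`, vanish to a point where the
other forms vanish -/
def Special (a : Fin r → Fin (n + 1) → K) (x : Fin (n + 1) → K) : Prop :=
  ∃ (A : Finset (Fin r)) (y z : Fin (n + 1) → K), y ≠ 0 ∧ z ≠ 0 ∧ x = y + z ∧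
    (∀ i ∈ A, lin (a i) y = 0) ∧ ∀ i ∉ A, lin (a i) z = 0

end Pool.Agent.H84.VH
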