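import Mathlib
import Pool.Agent.H84.VH.B

/-!
# The number of possible sets of places of a given type
-/

set_option autoImplicit false

open NumberField Height Finset LinearAlgebra.Projectivization
open scoped Classical

namespace Pool.Agent.H84.VH

open Pool.Agent.H57R3.VJ

lemma card_image_le_fibers {α β γ : Type*} [DecidableEq β] [DecidableEq γ] (s : Finset α) (f : α → β) (g : α → γ) (N : ℝ)
    (h : ∀ u ∈ s.image f, (((s.filter fun x => f x = u).image g).card : ℝ) ≤ N) :
    ((s.image g).card : ℝ) ≤ ((s.image f).card : ℝ) * N := by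
  have h1 : s.image g ⊆ (s.image f).biUnion fun u => (s.filter fun x => f x = u).image g := by
    intro y hy
    obtain ⟨x, hx, rfl⟩ := mem_image.1 hy
    rw [mem_biUnion]
    exact ⟨f x, mem_image_of_mem _ hx, mem_image.2 ⟨x, mem_filter.2 ⟨hx, rfl⟩, rfl⟩⟩
  calc ((s.image g).card : ℝ) ≤ ((s.image f).biUnion fun u => (s.filter fun x => f x = u).image g).card := by
        exact_mod_cast card_le_card h1
    _ ≤ ∑ u ∈ s.image f, (((s.filter fun x => f x = u).image g).card : ℝ) := by
        exact_mod_cast card_biUnion_le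
    _ ≤ ∑ _u ∈ s.image f, N := sum_le_sum h
    _ = _ := by rw [sum_const, nsmul_eq_mul]

variable {K : Type*} [Field K] [NumberField K] {n r : ℕ}

/-- the forms whose hyperplane meets the point at `v` -/
noncomputable def tp (a : Fin r → Fin (n + 1) → K) (x : Fin (n + 1) → K) (v : FinitePlace K) :
    Finset (Fin r) := univ.filter fun i => Meets (a i) x v

/-- the places at which some hyperplane meets the point -/
noncomputable def pl (a : Fin r → Fin (n + 1) → K) (x : Fin (n + 1) → K) : Finset (FinitePlace K) :=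
  if h : {v : FinitePlace K | ∃ i, Meets (a i) x v}.Finite then h.toFinset else ∅

lemma mem_pl {a : Fin r → Fin (n + 1) → K} (ha0 : ∀ i, a i ≠ 0) {x : Fin (n + 1) → K} (hx : x ≠ 0)
    (hl : ∀ i, lin (a i) x ≠ 0) (v : FinitePlace K) : v ∈ pl a x ↔ ∃ i, Meets (a i) x v := by
  have h : {v : FinitePlace K | ∃ i, Meets (a i) x v}.Finite := by
    have : {v : FinitePlace K | ∃ i, Meets (a i) x v} = ⋃ i, {v | Meets (a i) x v} := by
      ext v; simp
    rw [this]
    exact Set.finite_iUnion fun i => meets_fin (ha0 i) hx (hl i)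
  unfold pl
  rw [dif_pos h]
  simp

/-- the places outside `S0` of type `A` -/
noncomputable def GG (a : Fin r → Fin (n + 1) → K) (S0 : Finset (FinitePlace K)) (A : Finset (Fin r))
    (x : Fin (n + 1) → K) : Finset (FinitePlace K) :=
  (pl a x \ S0).filter fun v => tp a x v = A

lemma two_pow_le {δ : ℝ} (hδ : 0 < δ) : ∃ C : ℝ, 1 ≤ C ∧ ∀ w : K, w ≠ 0 →
    ∀ Z : Finset (FinitePlace K), (∀ v ∈ Z, v w < 1) → (2 : ℝ) ^ Z.card ≤ C * mulHeight₁ w ^ δ := by
  obtain ⟨C, hC, h⟩ := prod_const (K := K) hδ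
  refine ⟨C, hC, fun w hw Z hZ => ?_⟩
  have h1 : (2 : ℝ) ^ Z.card ≤ ∏ v ∈ Z, (2 * (1 - NN v ^ (-δ))⁻¹) := by
    rw [← Finset.prod_const]
    apply prod_le_prod (fun _ _ => by norm_num)
    intro v _
    have h2 : NN v ^ (-δ) < 1 :=
      Real.rpow_lt_one_of_one_lt_of_neg (by linarith [two_le_NN v]) (by linarith)
    have h3 : 0 < NN v ^ (-δ) := Real.rpow_pos_of_pos (NN_pos v) _
    have h4 : 1 ≤ (1 - NN v ^ (-δ))⁻¹ := (one_le_inv₀ (by linarith)).2 (by linarith)
    linarith
  have h5 : ∏ v ∈ Z, NN v ≤ mulHeight₁ w := by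
    have h6 := prod_le_height (inv_ne_zero hw) Z
    rw [mulHeight₁_inv] at h6
    refine le_trans (prod_le_prod (fun v _ => (NN_pos v).le) fun v hv => ?_) h6
    have h7 := gain v hw one_ne_zero (by rw [map_one]; exact hZ v hv)
    rw [map_one] at h7
    have h8 : 0 < v w := FinitePlace.pos_iff.2 hw
    refine le_trans ?_ (le_max_left _ _)
    rw [map_inv₀, le_inv_comm₀ (NN_pos v) h8, ← one_div, le_div_iff₀ (NN_pos v), mul_comm]
    exact h7
  refine h1.trans ((h Z).trans (mul_le_mul_of_nonneg_left ?_ (by linarith)))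
  rw [Real.finsetProd_rpow _ _ fun v _ => (NN_pos v).le]
  exact Real.rpow_le_rpow (prod_nonneg fun v _ => (NN_pos v).le) h5 hδ.le

/-- heights of the ratios of finitely many forms -/
lemma heights {ι κ : Type*} (s : Finset ι) (t : Finset κ) (b : ι → Fin (n + 1) → K)
    (b0 : κ → Fin (n + 1) → K) : ∃ D : ℝ, 1 ≤ D ∧ ∀ i ∈ s, ∀ j ∈ t, ∀ x : Fin (n + 1) → K,
      mulHeight₁ (lin (b i) x / lin (b0 j) x) ≤ D * mulHeight x := by
  have hh : ∀ i j, ∃ C : ℝ, 0 < C ∧ ∀ x : Fin (n + 1) → K,
    mulHeight₁ (lin (b i) x / lin (b0 j) x) ≤ C * mulHeight x := fun i j => height_ratio (b i) (b0 j)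
  choose D0 hD0 hD using hh
  refine ⟨1 + ∑ i ∈ s, ∑ j ∈ t, D0 i j, ?_, ?_⟩
  · have : 0 ≤ ∑ i ∈ s, ∑ j ∈ t, D0 i j := sum_nonneg fun i _ => sum_nonneg fun j _ => (hD0 i j).le
    linarith
  · intro i hi j hj x
    refine (hD i j x).trans (mul_le_mul_of_nonneg_right ?_ (by positivity))
    have h1 : D0 i j ≤ ∑ j ∈ t, D0 i j :=
      single_le_sum (f := fun j => D0 i j) (fun j _ => (hD0 i j).le) hj
    have h2 : ∑ j ∈ t, D0 i j ≤ ∑ i ∈ s, ∑ j ∈ t, D0 i j :=
      single_le_sum (f := fun i => ∑ j ∈ t, D0 i j) (fun i _ => sum_nonneg fun j _ => (hD0 i j).le) hi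
    linarith

/-- **The number of possible sets of places of type `A`**, if the other forms are units outside `Q`
and some relation does not vanish. -/
theorem step (a : Fin r → Fin (n + 1) → K) (ha0 : ∀ i, a i ≠ 0) (S0 : Finset (FinitePlace K))
    (hs1 : ∀ v ∉ S0, ∀ i, sv v (a i) = 1) (A : Finset (Fin r)) (hA : Aᶜ.Nonempty)
    (s : Finset (Fin (n + 1) → K)) (c d : (Fin (n + 1) → K) → Fin r → K)
    (hc : ∀ b ∈ s, b = ∑ i ∈ Aᶜ, c b i • a i) (hd : ∀ b ∈ s, b = ∑ i ∈ A, d b i • a i)
    (hdS : ∀ v ∉ S0, ∀ b ∈ s, ∀ i, v (d b i) ≤ 1) {δ : ℝ} (hδ : 0 < δ) :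
    ∃ C : ℝ, 1 ≤ C ∧ ∀ B : ℝ, 1 ≤ B → ∀ Q : Finset (FinitePlace K),
      ∀ PP : Finset (ℙ K (Fin (n + 1) → K)), (∀ P ∈ PP, (∀ i, lin (a i) P.rep ≠ 0) ∧
        mulHeight P.rep ≤ B ∧ (∀ v ∉ Q, ∀ i ∉ A, v (lin (a i) P.rep) = sv v P.rep) ∧
        ∃ b ∈ s, lin b P.rep ≠ 0) →
      ((PP.image fun P => GG a S0 A P.rep).card : ℝ) ≤ (C * B ^ δ * (∏ v ∈ Q, NN v) ^ δ) ^ (r + 1) := by
  obtain ⟨C1, hC1, h1⟩ := supp_card (K := K) hδ
  obtain ⟨C2, hC2, h2⟩ := two_pow_le (K := K) hδ
  obtain ⟨i0, hi0⟩ := hA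
  have hi0' : i0 ∉ A := mem_compl.1 hi0
  obtain ⟨D1, hD1, hDa⟩ := heights (K := K) (n := n) (univ : Finset (Fin r)) (univ : Finset (Fin r)) a a
  obtain ⟨D2, hD2, hDb⟩ := heights (K := K) (n := n) s (univ : Finset (Fin r)) id a
  set D : ℝ := max D1 D2 with hD
  have hD' : 1 ≤ D := hD1.trans (le_max_left _ _)
  set C3 : ℝ := max (C1 * D ^ δ) (max (C2 * D ^ δ) 1) with hC3
  have hC31 : 1 ≤ C3 := (le_max_right _ _).trans (le_max_right _ _)
  refine ⟨C3, hC31, fun B hB Q PP hPP => ?_⟩
  have hNQ : 1 ≤ ∏ v ∈ Q, NN v := Finset.one_le_prod fun v _ => by linarith [two_le_NN v]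
  have hBδ : 1 ≤ B ^ δ := Real.one_le_rpow hB hδ.le
  have hQδ : 1 ≤ (∏ v ∈ Q, NN v) ^ δ := Real.one_le_rpow hNQ hδ.le
  set X : ℝ := C3 * B ^ δ * (∏ v ∈ Q, NN v) ^ δ with hX
  have hX1 : 1 ≤ X := by
    have : 1 ≤ C3 * B ^ δ := by nlinarith
    nlinarith
  -- the tuples of ratios
  set f : ℙ K (Fin (n + 1) → K) → (Aᶜ : Finset (Fin r)) → K :=
    fun P i => lin (a i) P.rep / lin (a i0) P.rep with hf
  have hU : ∀ i : (Aᶜ : Finset (Fin r)), ((PP.image fun P => f P i).card : ℝ) ≤ X := by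
    intro i
    have hi : (i : Fin r) ∉ A := mem_compl.1 i.2
    have := h1 (D * B) (by nlinarith) Q (PP.image fun P => f P i) (by
      intro u hu
      obtain ⟨P, hP, rfl⟩ := mem_image.1 hu
      obtain ⟨g1, g2, g3, _⟩ := hPP P hP
      refine ⟨div_ne_zero (g1 _) (g1 _), ?_, ?_⟩
      · refine (hDa i (mem_univ _) i0 (mem_univ _) P.rep).trans ?_
        exact mul_le_mul (le_max_left _ _) g2 (by positivity) (by linarith)
      · intro v hv
        rw [hf]
        simp only
        rw [map_div₀, g3 v hv i hi, g3 v hv i0 hi0']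
        exact div_self (sv_pos v P.rep_nonzero).ne')
    rw [Real.mul_rpow (by linarith) (by linarith), ← mul_assoc] at this
    refine this.trans ?_
    rw [hX]
    apply mul_le_mul_of_nonneg_right _ (by positivity)
    apply mul_le_mul_of_nonneg_right _ (by positivity)
    exact le_max_left _ _
  have hfcard : ((PP.image f).card : ℝ) ≤ X ^ r := by
    have hsub : PP.image f ⊆ Fintype.piFinset fun i : (Aᶜ : Finset (Fin r)) => PP.image fun P => f P i := by
      intro u hu
      obtain ⟨P, hP, rfl⟩ := mem_image.1 hu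
      rw [Fintype.mem_piFinset]
      intro i
      exact mem_image_of_mem _ hP
    calc ((PP.image f).card : ℝ) ≤ ((Fintype.piFinset fun i : (Aᶜ : Finset (Fin r)) => PP.image fun P => f P i).card : ℝ) := by
          exact_mod_cast card_le_card hsub
      _ = ∏ i : (Aᶜ : Finset (Fin r)), ((PP.image fun P => f P i).card : ℝ) := by
          rw [Fintype.card_piFinset, Nat.cast_prod]
      _ ≤ ∏ _i : (Aᶜ : Finset (Fin r)), X := by
          apply prod_le_prod
          · intro i _; exact Nat.cast_nonneg _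
          · intro i _; exact hU i
      _ = X ^ (Aᶜ : Finset (Fin r)).card := by rw [Finset.prod_const, card_univ, Fintype.card_coe]
      _ ≤ X ^ r := by
          apply pow_le_pow_right₀ hX1
          exact (card_le_univ _).trans (by rw [Fintype.card_fin])
  -- the fibres
  have hfib : ∀ u ∈ PP.image f, (((PP.filter fun P => f P = u).image fun P => GG a S0 A P.rep).card : ℝ) ≤ X := by
    intro u hu
    obtain ⟨P0, hP0, rfl⟩ := mem_image.1 hu
    obtain ⟨g1, g2, g3, b, hb, hb0⟩ := hPP P0 hP0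
    have hval : ∀ P ∈ PP, f P = f P0 → lin b P.rep / lin (a i0) P.rep = lin b P0.rep / lin (a i0) P0.rep := by
      intro P hP hPf
      have e : ∀ P : ℙ K (Fin (n + 1) → K), lin b P.rep / lin (a i0) P.rep =
          ∑ i : (Aᶜ : Finset (Fin r)), c b i * f P i := by
        intro P
        conv_lhs => rw [hc b hb]
        rw [lin_sum, sum_div, ← sum_coe_sort Aᶜ]
        apply sum_congr rfl
        intro i _
        rw [hf]
        simp only
        rw [mul_div_assoc]
      rw [e, e, hPf]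
    set w : K := lin b P0.rep / lin (a i0) P0.rep with hw
    have hw0 : w ≠ 0 := div_ne_zero hb0 (g1 i0)
    have hwh : mulHeight₁ w ≤ D * B := by
      refine (hDb b hb i0 (mem_univ _) P0.rep).trans ?_
      exact mul_le_mul (le_max_right _ _) g2 (by positivity) (by linarith)
    have hZfin : {v : FinitePlace K | v w < 1}.Finite := by
      refine (FinitePlace.hasFiniteMulSupport hw0).subset ?_
      intro v hv
      rw [Function.mem_mulSupport]
      exact ne_of_lt hv
    have hsub : ((PP.filter fun P => f P = f P0).image fun P => GG a S0 A P.rep) ⊆ hZfin.toFinset.powerset := by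
      intro G hG
      obtain ⟨P, hP, rfl⟩ := mem_image.1 hG
      obtain ⟨hP1, hP2⟩ := mem_filter.1 hP
      obtain ⟨k1, k2, k3, _⟩ := hPP P hP1
      rw [mem_powerset]
      intro v hv
      rw [Set.Finite.mem_toFinset]
      show v w < 1
      unfold GG at hv
      rw [mem_filter, mem_sdiff, mem_pl ha0 P.rep_nonzero k1] at hv
      obtain ⟨⟨_, hvS⟩, hvA⟩ := hv
      have hvi : ∀ i ∈ A, v (lin (a i) P.rep) < sv v P.rep := by
        intro i hi
        rw [← hvA] at hi
        unfold tp at hi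
        have := (mem_filter.1 hi).2
        unfold Meets at this
        rwa [hs1 v hvS i, one_mul] at this
      have hv0 : v (lin (a i0) P.rep) = sv v P.rep := by
        apply not_meets (hs1 v hvS i0)
        intro hm
        apply hi0'
        rw [← hvA]
        unfold tp
        exact mem_filter.2 ⟨mem_univ _, hm⟩
      rw [← hval P hP1 hP2, map_div₀, hv0, div_lt_one (sv_pos v P.rep_nonzero)]
      conv_lhs => rw [hd b hb]
      rw [lin_sum]
      apply sum_lt_v v _ _ (sv_pos v P.rep_nonzero)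
      intro i hi
      rw [map_mul]
      calc v (d b i) * v (lin (a i) P.rep) ≤ 1 * v (lin (a i) P.rep) :=
            mul_le_mul_of_nonneg_right (hdS v hvS b hb i) (apply_nonneg _ _)
        _ = v (lin (a i) P.rep) := one_mul _
        _ < _ := hvi i hi
    calc (((PP.filter fun P => f P = f P0).image fun P => GG a S0 A P.rep).card : ℝ) ≤
        (hZfin.toFinset.powerset.card : ℝ) := by exact_mod_cast card_le_card hsub
      _ = (2 : ℝ) ^ hZfin.toFinset.card := by rw [card_powerset]; push_cast; rfl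
      _ ≤ C2 * mulHeight₁ w ^ δ := h2 w hw0 _ (fun v hv => by simpa using hv)
      _ ≤ C2 * (D * B) ^ δ := by
          apply mul_le_mul_of_nonneg_left _ (by linarith)
          exact Real.rpow_le_rpow (by positivity) hwh hδ.le
      _ = C2 * D ^ δ * B ^ δ * 1 := by rw [Real.mul_rpow (by linarith) (by linarith)]; ring
      _ ≤ C3 * B ^ δ * (∏ v ∈ Q, NN v) ^ δ := by
          apply mul_le_mul _ hQδ zero_le_one (by positivity)
          apply mul_le_mul_of_nonneg_right _ (by positivity)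
          exact (le_max_left _ _).trans (le_max_right _ _)
      _ = X := rfl
  have := card_image_le_fibers PP f (fun P => GG a S0 A P.rep) X hfib
  refine this.trans ?_
  rw [pow_succ]
  exact mul_le_mul_of_nonneg_right hfcard (by linarith)

end Pool.Agent.H84.VH
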