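import Mathlib
import Pool.Agent.H84.VH.B
import Pool.Graph.R_seed8.H57R3.VJ.L

/-!
# Points on the special subspaces: generic points of the strata and heights
-/

set_option autoImplicit false

open NumberField Height Finset LinearAlgebra.Projectivization
open scoped Classical

namespace Pool.Agent.H84.VH

open Pool.Agent.H57R3.VJ

variable {K : Type*} [Field K] [NumberField K] {n r : ℕ}

/-- a generic point of a stratum -/
lemma generic {a : Fin r → Fin (n + 1) → K} (ha : GenPos a) (hr : n + 1 ≤ r) (A : Finset (Fin r))
    (hA : A.card ≤ n) :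
    ∃ y : Fin (n + 1) → K, (∀ i ∈ A, lin (a i) y = 0) ∧ ∀ j ∉ A, lin (a j) y ≠ 0 := by
  set W : Submodule K (Fin (n + 1) → K) := ⨅ i : A, LinearMap.ker (linM (a i)) with hW
  have hmem : ∀ y, y ∈ W ↔ ∀ i ∈ A, lin (a i) y = 0 := by
    intro y
    rw [hW, Submodule.mem_iInf]
    constructor
    · intro h i hi
      exact h ⟨i, hi⟩
    · intro h i
      exact h i i.2
  have : Infinite K := CharZero.infinite K
  obtain ⟨y, hy1, hy2⟩ := Module.Dual.exists_forall_mem_ne_zero_of_forall_exists W
    (fun j : {j : Fin r // j ∉ A} => linM (a j.1)) (by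
      intro j
      by_contra hne
      push Not at hne
      obtain ⟨d, hd⟩ := comb_of_ker a A (a j.1) (fun y hy => hne y ((hmem y).2 hy))
      -- a set of `n + 1` forms with `j` and `A`
      obtain ⟨I, hI1, _, hI2⟩ := Finset.exists_subsuperset_card_eq (s := insert j.1 A)
        (t := (univ : Finset (Fin r))) (n := n + 1) (subset_univ _)
        (by rw [card_insert_of_notMem j.2]; omega) (by simpa using hr)
      have hli := ha I hI2
      rw [Fintype.linearIndependent_iff] at hli
      have h0 := hli (fun i : I => if i.1 = j.1 then (-1 : K) else if i.1 ∈ A then d i.1 else 0) (by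
        have e1 : ∑ i : I, (if i.1 = j.1 then (-1 : K) else if i.1 ∈ A then d i.1 else 0) • a i.1 =
            ∑ i ∈ I, (if i = j.1 then (-1 : K) else if i ∈ A then d i else 0) • a i :=
          sum_coe_sort I (fun i => (if i = j.1 then (-1 : K) else if i ∈ A then d i else 0) • a i)
        rw [e1, ← sum_subset hI1 (by
          intro i _ hi
          rw [mem_insert, not_or] at hi
          rw [if_neg hi.1, if_neg hi.2, zero_smul]), sum_insert j.2, if_pos rfl, neg_one_smul]
        have e2 : ∑ i ∈ A, (if i = j.1 then (-1 : K) else if i ∈ A then d i else 0) • a i =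
            ∑ i ∈ A, d i • a i := by
          apply sum_congr rfl
          intro i hi
          rw [if_neg (by rintro rfl; exact j.2 hi), if_pos hi]
        rw [e2, ← hd, neg_add_cancel])
      have h1 := h0 ⟨j.1, hI1 (mem_insert_self _ _)⟩
      simp at h1)
  exact ⟨y, (hmem y).1 hy1, fun j hj => hy2 ⟨j, hj⟩⟩

/-- the inclusion of the integers -/
noncomputable abbrev io : 𝓞 K →+* K := algebraMap (𝓞 K) K

lemma int_le_one (v : FinitePlace K) (x : 𝓞 K) : v (io x) ≤ 1 := by
  rw [← NumberField.FinitePlace.norm_embedding_eq]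
  exact NumberField.FinitePlace.norm_le_one K v.maximalIdeal x

/-- the height of an integer -/
lemma height_int {b : 𝓞 K} {T : ℝ} (hT : 1 ≤ T) (hb : ∀ w : InfinitePlace K, w (io b) ≤ T) :
    mulHeight₁ (io b) ≤ T ^ Module.finrank ℚ K := by
  rw [NumberField.mulHeight₁_eq]
  have h1 : ∏ᶠ v : FinitePlace K, max (v (io b)) 1 = 1 := by
    apply finprod_eq_one_of_forall_eq_one
    intro v
    exact max_eq_right (int_le_one v b)
  rw [h1, mul_one, ← InfinitePlace.sum_mult_eq, ← Finset.prod_pow_eq_pow_sum]
  apply Finset.prod_le_prod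
  · intro w _
    exact pow_nonneg (le_trans zero_le_one (le_max_right _ _)) _
  · intro w _
    exact pow_le_pow_left₀ (le_trans zero_le_one (le_max_right _ _)) (max_le (hb w) hT) _

/-- the height of a pair of coprime integers -/
lemma height_pair {a b : 𝓞 K} (hab : (io a) ≠ 0) (hco : ∀ v : FinitePlace K, v (io a) = 1 ∨ v (io b) = 1) :
    mulHeight ![(io a), (io b)] = ∏ w : InfinitePlace K, (max (w (io a)) (w (io b))) ^ w.mult := by
  have hne : ![(io a), (io b)] ≠ 0 := by
    intro h
    exact hab (congrFun h 0)
  have e : ∀ v : AbsoluteValue K ℝ, (⨆ i, v (![(io a), (io b)] i)) = max (v (io a)) (v (io b)) := by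
    intro v
    apply le_antisymm
    · apply ciSup_le
      intro i
      fin_cases i
      · exact le_max_left _ _
      · exact le_max_right _ _
    · apply max_le
      · exact Finite.le_ciSup_of_le (0 : Fin 2) le_rfl
      · exact Finite.le_ciSup_of_le (1 : Fin 2) le_rfl
  rw [NumberField.mulHeight_eq hne]
  have h1 : ∏ᶠ v : FinitePlace K, (⨆ i, v (![(io a), (io b)] i)) = 1 := by
    apply finprod_eq_one_of_forall_eq_one
    intro v
    have := e v.1
    refine this.trans ?_
    have ha1 := int_le_one v a
    have hb1 := int_le_one v b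
    rcases hco v with h | h
    · exact (max_eq_left (hb1.trans h.symm.le)).trans h
    · exact (max_eq_right (ha1.trans h.symm.le)).trans h
  rw [h1, mul_one]
  apply prod_congr rfl
  intro w _
  congr 1
  exact e w.1

end Pool.Agent.H84.VH
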