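import Mathlib
import Pool.Agent.H84.VH.F1

/-!
# Points on the special subspaces: integers, places
-/

set_option autoImplicit false

open NumberField Height Finset LinearAlgebra.Projectivization
open scoped Classical

namespace Pool.Agent.H84.VH

open Pool.Agent.H57R3.VJ

variable {K : Type*} [Field K] [NumberField K] {n r : ℕ}

variable (K) in
/-- the index type of the integral basis -/
abbrev Ix : Type _ := Module.Free.ChooseBasisIndex ℤ (𝓞 K)

/-- the integers `1 + 2 ∑ t_j ω_j` -/
noncomputable def bb (t : Ix K → ℕ) : 𝓞 K := 1 + 2 * ∑ j, (t j : ℤ) • RingOfIntegers.basis K j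

lemma bb_inj {t t' : Ix K → ℕ} (h : bb t = bb t') : t = t' := by
  unfold bb at h
  have h1 : (2 : 𝓞 K) * ∑ j, (t j : ℤ) • RingOfIntegers.basis K j =
      2 * ∑ j, (t' j : ℤ) • RingOfIntegers.basis K j := add_left_cancel h
  have h2 := mul_left_cancel₀ (two_ne_zero (α := 𝓞 K)) h1
  have h3 : ∑ j, ((t j : ℤ) - t' j) • RingOfIntegers.basis K j = 0 := by
    simp only [sub_smul, sum_sub_distrib]
    rw [h2, sub_self]
  have hli := (RingOfIntegers.basis K).linearIndependent
  rw [Fintype.linearIndependent_iff] at hli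
  ext j
  have := hli _ h3 j
  omega

lemma card_Ix : Fintype.card (Ix K) = Module.finrank ℚ K := by
  rw [← Module.finrank_eq_card_chooseBasisIndex, RingOfIntegers.rank]

lemma bb_coprime (k : ℕ) (t : Ix K → ℕ) (v : FinitePlace K) :
    v (io ((2 : 𝓞 K) ^ k)) = 1 ∨ v (io (bb t)) = 1 := by
  by_cases h2 : v (2 : K) = 1
  · left
    rw [map_pow, map_pow]
    have : v (io (2 : 𝓞 K)) = 1 := by
      rw [map_ofNat]; exact h2
    rw [this, one_pow]
  · right
    have h3 : v (2 : K) ≤ 1 := by
      have := int_le_one v (2 : 𝓞 K)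
      rwa [map_ofNat] at this
    have h4 : v (2 : K) < 1 := lt_of_le_of_ne h3 h2
    have h5 : v (io (bb t)) ≤ 1 := int_le_one v _
    apply le_antisymm h5
    by_contra hlt
    push Not at hlt
    set s : 𝓞 K := ∑ j, (t j : ℤ) • RingOfIntegers.basis K j with hs
    have e : (1 : K) = io (bb t) + -(2 * io s) := by
      unfold bb
      rw [← hs, map_add, map_one, map_mul, map_ofNat]
      ring
    have h6 : v (-(2 * io s)) < 1 := by
      rw [map_neg_eq_map, map_mul]
      calc v (2 : K) * v (io s) ≤ v (2 : K) * 1 := mul_le_mul_of_nonneg_left (int_le_one v s) (apply_nonneg _ _)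
        _ < 1 := by rw [mul_one]; exact h4
    have h7 : v (1 : K) ≤ max (v (io (bb t))) (v (-(2 * io s))) := by
      conv_lhs => rw [e]
      exact FinitePlace.add_le v _ _
    rw [map_one] at h7
    exact absurd h7 (not_le.2 (max_lt hlt h6))

lemma bb_ne_zero (t : Ix K → ℕ) : (io (bb t)) ≠ 0 := by
  intro h0
  have h2 : ∀ v : FinitePlace K, v (2 : K) = 1 := by
    intro v
    rcases bb_coprime 1 t v with h | h
    · rw [pow_one, map_ofNat] at h
      exact h
    · rw [h0, map_zero] at h
      norm_num at h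
  have h3 := NumberField.prod_abs_eq_one (K := K) (x := 2) two_ne_zero
  have h4 : ∏ᶠ v : FinitePlace K, v (2 : K) = 1 := finprod_eq_one_of_forall_eq_one h2
  rw [h4, mul_one] at h3
  have h5 : ∀ w : InfinitePlace K, w (2 : K) = 2 := by
    intro w
    have h8 := w.norm_embedding_eq (2 : K)
    rw [map_ofNat] at h8
    rw [← h8]
    norm_num
  have h6 : ∏ w : InfinitePlace K, w (2 : K) ^ w.mult = 2 ^ Module.finrank ℚ K := by
    rw [← InfinitePlace.sum_mult_eq, ← Finset.prod_pow_eq_pow_sum]
    exact prod_congr rfl fun w _ => by rw [h5]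
  rw [h6] at h3
  have h7 : (2 : ℝ) ≤ 2 ^ Module.finrank ℚ K := by
    calc (2 : ℝ) = 2 ^ 1 := (pow_one _).symm
      _ ≤ _ := pow_le_pow_right₀ (by norm_num) Module.finrank_pos
  linarith

variable (K) in
/-- the size of the integers -/
lemma bb_size : ∃ c : ℝ, 1 ≤ c ∧ ∀ (T : ℝ) (t : Ix K → ℕ), 1 ≤ T → (∀ j, (t j : ℝ) ≤ T) →
    ∀ w : InfinitePlace K, w (io (bb t)) ≤ c * T := by
  refine ⟨1 + 2 * ∑ w : InfinitePlace K, ∑ j, w (io (RingOfIntegers.basis K j)), ?_, ?_⟩
  · have : 0 ≤ ∑ w : InfinitePlace K, ∑ j, w (io (RingOfIntegers.basis K j)) :=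
      sum_nonneg fun w _ => sum_nonneg fun j _ => apply_nonneg _ _
    linarith
  intro T t hT ht w
  set G : InfinitePlace K → ℝ := fun w => ∑ j, w (io (RingOfIntegers.basis K j)) with hG
  have hG0 : ∀ w, 0 ≤ G w := fun w => sum_nonneg fun j _ => apply_nonneg _ _
  have h1 : G w ≤ ∑ w, G w := single_le_sum (f := G) (fun w _ => hG0 w) (mem_univ w)
  have h2 : w (io (∑ j, (t j : ℤ) • RingOfIntegers.basis K j)) ≤ T * G w := by
    rw [map_sum]
    refine (w.1.sum_le Finset.univ _).trans ?_
    rw [hG, mul_sum]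
    apply sum_le_sum
    intro j _
    rw [map_zsmul]
    have e : w.1 ((t j : ℤ) • (io (RingOfIntegers.basis K j))) =
        (t j : ℝ) * w (io (RingOfIntegers.basis K j)) := by
      show w ((t j : ℤ) • (io (RingOfIntegers.basis K j))) = _
      have h8 := w.norm_embedding_eq ((t j : ℕ) : K)
      rw [map_natCast] at h8
      rw [zsmul_eq_mul, map_mul, Int.cast_natCast, ← h8]
      simp
    exact e.le.trans (mul_le_mul_of_nonneg_right (ht j) (apply_nonneg _ _))
  have h3 : w (io (bb t)) ≤ 1 + 2 * (T * G w) := by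
    unfold bb
    rw [map_add, map_one, map_mul, map_ofNat]
    have h5 : w (2 : K) = 2 := by
      have h8 := w.norm_embedding_eq (2 : K)
      rw [map_ofNat] at h8
      rw [← h8]
      norm_num
    calc w (1 + 2 * (io (∑ j, (t j : ℤ) • RingOfIntegers.basis K j))) ≤
        w (1 : K) + w (2 * (io (∑ j, (t j : ℤ) • RingOfIntegers.basis K j))) := w.1.add_le _ _
      _ ≤ 1 + 2 * (T * G w) := by
          rw [map_one, map_mul, h5]
          linarith
  refine h3.trans ?_
  have h4 : T * G w ≤ T * ∑ w, G w := mul_le_mul_of_nonneg_left h1 (by linarith)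
  calc 1 + 2 * (T * G w) ≤ T + 2 * (T * ∑ w, G w) := by linarith
    _ = _ := by ring

/-- the counting function is at most the height of `b` -/
lemma N1_le {S : Finset (FinitePlace K)} {a : Fin r → Fin (n + 1) → K} {x : Fin (n + 1) → K}
    (S2 : Finset (FinitePlace K)) {b : K} (hb : b ≠ 0)
    (h : ∀ v ∉ S2, (∃ i, Meets (a i) x v) → v b < 1) :
    N1 S a x ≤ ∑ v ∈ S2, Real.log (NN v) + Real.log (mulHeight₁ b) := by
  have hfin : {v : FinitePlace K | v b < 1}.Finite := by
    refine (FinitePlace.hasFiniteMulSupport hb).subset ?_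
    intro v hv
    rw [Function.mem_mulSupport]
    exact ne_of_lt hv
  have hL : ∀ v : FinitePlace K, 0 ≤ Real.log (NN v) := fun v => Real.log_nonneg (by linarith [two_le_NN v])
  unfold N1
  rw [finsum_eq_sum_of_support_subset _ (s := S2 ∪ hfin.toFinset) (by
    intro v hv
    rw [Function.mem_support] at hv
    have h1 : v ∉ S ∧ ∃ i, Meets (a i) x v := by
      by_contra hne
      exact hv (if_neg hne)
    rw [mem_coe, mem_union, Set.Finite.mem_toFinset]
    by_cases h2 : v ∈ S2
    · exact Or.inl h2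
    · exact Or.inr (h v h2 h1.2))]
  calc ∑ v ∈ S2 ∪ hfin.toFinset, (if v ∉ S ∧ ∃ i, Meets (a i) x v then Real.log (NN v) else 0) ≤
      ∑ v ∈ S2 ∪ hfin.toFinset, Real.log (NN v) := by
        apply sum_le_sum
        intro v _
        split_ifs
        · exact le_rfl
        · exact hL v
    _ ≤ ∑ v ∈ S2, Real.log (NN v) + ∑ v ∈ hfin.toFinset, Real.log (NN v) := by
        rw [← sum_union_inter]
        have : 0 ≤ ∑ v ∈ S2 ∩ hfin.toFinset, Real.log (NN v) := sum_nonneg fun v _ => hL v
        linarith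
    _ ≤ _ := by
        have h1 : ∏ v ∈ hfin.toFinset, NN v ≤ mulHeight₁ b := by
          rw [← mulHeight₁_inv]
          refine le_trans ?_ (prod_le_height (inv_ne_zero hb) hfin.toFinset)
          apply prod_le_prod (fun v _ => (NN_pos v).le)
          intro v hv
          rw [Set.Finite.mem_toFinset] at hv
          have h2 : v b < v 1 := by rw [map_one]; exact hv
          have h3 := gain v hb one_ne_zero h2
          have h4 : 0 < v b := FinitePlace.pos_iff.2 hb
          refine le_trans ?_ (le_max_left _ _)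
          rw [map_inv₀, ← one_div, le_div_iff₀ h4]
          rwa [map_one] at h3
        have h5 : 0 < ∏ v ∈ hfin.toFinset, NN v := prod_pos fun v _ => NN_pos v
        have h6 := Real.log_le_log h5 h1
        rw [Real.log_prod (fun v _ => (NN_pos v).ne')] at h6
        linarith

end Pool.Agent.H84.VH
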