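import Mathlib

/-!
# Weighted chains in the Boolean lattice
-/

set_option autoImplicit false

open Finset

namespace Pool.Agent.H84.VH

variable {α : Type*} [DecidableEq α]

lemma avg_sum (g : Finset α → ℝ) (m : ℕ) (A : Finset α) (hA : A.card = m + 1) :
    ∑ a ∈ A, ∑ T ∈ (A.erase a).powerset.erase ∅, g T / (m.choose T.card : ℝ) =
      ∑ _a ∈ A, ∑ T ∈ (A.powerset.erase ∅).erase A, g T / ((m + 1).choose T.card : ℝ) := by
  have e1 : ∀ a ∈ A, ∑ T ∈ (A.erase a).powerset.erase ∅, g T / (m.choose T.card : ℝ) =
      ∑ T ∈ (A.powerset.erase ∅).erase A, if a ∉ T then g T / (m.choose T.card : ℝ) else 0 := by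
    intro a ha
    rw [← sum_filter]
    apply sum_congr _ (fun _ _ => rfl)
    ext T
    simp only [mem_erase, mem_powerset, mem_filter, ne_eq, subset_erase]
    constructor
    · rintro ⟨h1, h2, h3⟩
      exact ⟨⟨fun h => h3 (h ▸ ha), h1, h2⟩, h3⟩
    · rintro ⟨⟨_, h1, h2⟩, h3⟩
      exact ⟨h1, h2, h3⟩
  rw [sum_congr rfl e1, sum_comm, sum_comm (s := A)]
  apply sum_congr rfl
  intro T hT
  simp only [mem_erase, mem_powerset, ne_eq] at hT
  obtain ⟨hTA, hT0, hTs⟩ := hT
  have hlt : T.card < m + 1 := by
    rw [← hA]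
    exact card_lt_card (hTs.ssubset_of_ne hTA)
  rw [← sum_filter, sum_const, sum_const, nsmul_eq_mul, nsmul_eq_mul, hA]
  have hc : (A.filter fun a => a ∉ T).card = m + 1 - T.card := by
    rw [← sdiff_eq_filter, card_sdiff_of_subset hTs, hA]
  rw [hc]
  have h1 : 0 < m.choose T.card := Nat.choose_pos (by omega)
  have h2 : 0 < (m + 1).choose T.card := Nat.choose_pos (by omega)
  have h3 := Nat.choose_mul_succ_eq m T.card
  have h3' : (m.choose T.card : ℝ) * ((m : ℝ) + 1) =
      ((m + 1).choose T.card : ℝ) * ((m + 1 - T.card : ℕ) : ℝ) := by exact_mod_cast h3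
  have h1' : (m.choose T.card : ℝ) ≠ 0 := by exact_mod_cast h1.ne'
  have h2' : ((m + 1).choose T.card : ℝ) ≠ 0 := by exact_mod_cast h2.ne'
  push_cast
  field_simp
  linear_combination -h3' * g T

/-- a maximal chain with a large weight (weighted LYM inequality): the chain is the set of the
nonempty final segments of a list -/
theorem exists_chain (g : Finset α → ℝ) (m : ℕ) : ∀ A : Finset α, A.card = m →
    ∃ l : List α, l.Nodup ∧ l.toFinset = A ∧
      ∑ T ∈ A.powerset.erase ∅, g T / (m.choose T.card : ℝ) ≤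
        ∑ k ∈ range l.length, g (l.drop k).toFinset := by
  induction m with
  | zero =>
    intro A hA
    rw [card_eq_zero] at hA
    subst hA
    exact ⟨[], List.nodup_nil, rfl, by simp⟩
  | succ m ih =>
    intro A hA
    have hne : A.Nonempty := by
      rw [← card_pos, hA]; omega
    obtain ⟨a, ha, hle⟩ := exists_le_of_sum_le hne (avg_sum g m A hA).symm.le
    obtain ⟨l, hl1, hl2, hl3⟩ := ih (A.erase a) (by rw [card_erase_of_mem ha, hA]; rfl)
    have hal : a ∉ l := by
      intro h
      have : a ∈ l.toFinset := List.mem_toFinset.2 h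
      rw [hl2] at this
      exact absurd this (notMem_erase a A)
    refine ⟨a :: l, List.nodup_cons.2 ⟨hal, hl1⟩, ?_, ?_⟩
    · rw [List.toFinset_cons, hl2, insert_erase ha]
    · rw [List.length_cons, sum_range_succ']
      simp only [List.drop_succ_cons, List.drop_zero]
      have hAm : A ∈ A.powerset.erase ∅ := by
        simp only [mem_erase, mem_powerset, Subset.refl, and_true, ne_eq]
        exact hne.ne_empty
      rw [← add_sum_erase _ _ hAm, hA, Nat.choose_self, Nat.cast_one, div_one, add_comm]
      have e : (a :: l).toFinset = A := by rw [List.toFinset_cons, hl2, insert_erase ha]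
      rw [e]
      linarith [hle, hl3]

/-- the same, with the total weight -/
theorem exists_chain' (g : Finset α → ℝ) (hg : ∀ T, 0 ≤ g T) [Fintype α] :
    ∃ l : List α, l.Nodup ∧ l.toFinset = univ ∧
      (∑ T ∈ (univ : Finset (Finset α)).erase ∅, g T) /
        ((Fintype.card α).choose (Fintype.card α / 2) : ℝ) ≤
        ∑ k ∈ range l.length, g (l.drop k).toFinset := by
  obtain ⟨l, h1, h2, h3⟩ := exists_chain g (Fintype.card α) univ (card_univ)
  refine ⟨l, h1, h2, le_trans ?_ h3⟩
  rw [powerset_univ, sum_div]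
  apply sum_le_sum
  intro T hT
  have hc : T.card ≤ Fintype.card α := card_le_univ T
  have hp : 0 < (Fintype.card α).choose T.card := Nat.choose_pos hc
  apply div_le_div_of_nonneg_left (hg T) (by exact_mod_cast hp)
  exact_mod_cast Nat.choose_le_middle _ _

end Pool.Agent.H84.VH
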