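import Mathlib
import Pool.Agent.H84.VH.A
import Pool.Agent.H84.VH.C

/-!
# The order of the forms, and the sequence of known sets of places
-/

set_option autoImplicit false

open NumberField Height Finset LinearAlgebra.Projectivization
open scoped Classical

namespace Pool.Agent.H84.VH

open Pool.Agent.H57R3.VJ

variable {K : Type*} [Field K] [NumberField K] {n r : ℕ}

/-- the places outside `S0` whose type is no final segment of the list -/
noncomputable def Qz (a : Fin r → Fin (n + 1) → K) (S0 : Finset (FinitePlace K)) (l : List (Fin r))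
    (x : Fin (n + 1) → K) : Finset (FinitePlace K) :=
  (pl a x \ S0).filter fun v => ∀ k < r, tp a x v ≠ (l.drop k).toFinset

/-- the places known after `k` steps -/
noncomputable def Rk (a : Fin r → Fin (n + 1) → K) (S0 : Finset (FinitePlace K)) (l : List (Fin r))
    (x : Fin (n + 1) → K) : ℕ → Finset (FinitePlace K)
  | 0 => Qz a S0 l x
  | k + 1 => Rk a S0 l x k ∪ GG a S0 (l.drop k).toFinset x

lemma log_NN_nonneg (v : FinitePlace K) : 0 ≤ Real.log (NN v) :=
  Real.log_nonneg (by linarith [two_le_NN v])

lemma card_drop {l : List (Fin r)} (hl : l.Nodup) (hu : l.toFinset = univ) (k : ℕ) :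
    (l.drop k).toFinset.card = r - k := by
  have h1 : l.length = r := by
    rw [← List.toFinset_card_of_nodup hl, hu, card_univ, Fintype.card_fin]
  rw [List.toFinset_card_of_nodup (hl.sublist (List.drop_sublist k l)), List.length_drop, h1]

theorem chain_choice (a : Fin r → Fin (n + 1) → K) (ha0 : ∀ i, a i ≠ 0) (S0 : Finset (FinitePlace K))
    {x : Fin (n + 1) → K} (hx : x ≠ 0) (hl : ∀ i, lin (a i) x ≠ 0) :
    ∃ l : {l : List (Fin r) // l.Nodup}, l.1.toFinset = univ ∧
      ∑ v ∈ Qz a S0 l.1 x, Real.log (NN v) ≤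
        (1 - 1 / (r.choose (r / 2) : ℝ)) * ∑ v ∈ pl a x \ S0, Real.log (NN v) := by
  obtain ⟨l, h1, h2, h3⟩ := exists_chain' (α := Fin r) (fun T => ∑ v ∈ GG a S0 T x, Real.log (NN v))
    (fun T => sum_nonneg fun v _ => log_NN_nonneg v)
  refine ⟨⟨l, h1⟩, h2, ?_⟩
  have hlen : l.length = r := by
    rw [← List.toFinset_card_of_nodup h1, h2, card_univ, Fintype.card_fin]
  -- the total
  have htot : ∑ T ∈ (univ : Finset (Finset (Fin r))).erase ∅, ∑ v ∈ GG a S0 T x, Real.log (NN v) =
      ∑ v ∈ pl a x \ S0, Real.log (NN v) := by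
    have e : ∀ T, ∑ v ∈ GG a S0 T x, Real.log (NN v) =
        ∑ v ∈ pl a x \ S0, if tp a x v = T then Real.log (NN v) else 0 := by
      intro T
      unfold GG
      rw [sum_filter]
    simp_rw [e]
    rw [sum_comm]
    apply sum_congr rfl
    intro v hv
    rw [sum_ite_eq, if_pos]
    rw [mem_erase]
    refine ⟨?_, mem_univ _⟩
    rw [mem_sdiff, mem_pl ha0 hx hl] at hv
    obtain ⟨⟨i, hi⟩, _⟩ := hv
    intro h0
    have : i ∈ tp a x v := mem_filter.2 ⟨mem_univ _, hi⟩
    rw [h0] at this
    exact absurd this (notMem_empty i)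
  -- the sum over the chain
  have hchain : ∑ k ∈ range r, ∑ v ∈ GG a S0 (l.drop k).toFinset x, Real.log (NN v) +
      ∑ v ∈ Qz a S0 l x, Real.log (NN v) ≤ ∑ v ∈ pl a x \ S0, Real.log (NN v) := by
    have e : ∀ T, ∑ v ∈ GG a S0 T x, Real.log (NN v) =
        ∑ v ∈ pl a x \ S0, if tp a x v = T then Real.log (NN v) else 0 := by
      intro T
      unfold GG
      rw [sum_filter]
    simp_rw [e]
    rw [sum_comm]
    unfold Qz
    rw [sum_filter, ← sum_add_distrib]
    apply sum_le_sum
    intro v _
    by_cases hv : ∀ k < r, tp a x v ≠ (l.drop k).toFinset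
    · rw [if_pos hv, sum_eq_zero, zero_add]
      intro k hk
      rw [if_neg (hv k (mem_range.1 hk))]
    · rw [if_neg hv, add_zero]
      push Not at hv
      obtain ⟨k0, hk0, hk1⟩ := hv
      rw [sum_eq_single k0]
      · rw [if_pos hk1]
      · intro k hk hne
        rw [if_neg]
        intro h
        rw [hk1] at h
        have c1 := card_drop h1 h2 k0
        have c2 := card_drop h1 h2 k
        rw [h, c2] at c1
        rw [mem_range] at hk
        omega
      · intro h
        exact absurd (mem_range.2 hk0) h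
  rw [hlen, Fintype.card_fin, htot] at h3
  rw [sub_mul, one_mul, one_div, inv_mul_eq_div]
  linarith

/-- the places known after `k` steps contain all places at which the first `k` forms are no units -/
lemma unit_of_notMem {a : Fin r → Fin (n + 1) → K} (ha0 : ∀ i, a i ≠ 0) {S0 : Finset (FinitePlace K)}
    (hs1 : ∀ v ∉ S0, ∀ i, sv v (a i) = 1) {l : List (Fin r)} (hnd : l.Nodup)
    {x : Fin (n + 1) → K} (hx : x ≠ 0) (hl : ∀ i, lin (a i) x ≠ 0)
    (k : ℕ) {v : FinitePlace K} (hv : v ∉ Rk a S0 l x k ∪ S0) {i : Fin r} (hi : i ∈ l.take k) :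
    v (lin (a i) x) = sv v x := by
  rw [mem_union, not_or] at hv
  apply not_meets (hs1 v hv.2 i)
  intro hm
  apply hv.1
  have hpl : v ∈ pl a x \ S0 := mem_sdiff.2 ⟨(mem_pl ha0 hx hl v).2 ⟨i, hm⟩, hv.2⟩
  have hti : i ∈ tp a x v := mem_filter.2 ⟨mem_univ _, hm⟩
  have hmono : ∀ m, Qz a S0 l x ⊆ Rk a S0 l x m := by
    intro m
    induction m with
    | zero => exact Subset.refl _
    | succ m ih => exact ih.trans subset_union_left
  have hG : ∀ m j, j < m → GG a S0 (l.drop j).toFinset x ⊆ Rk a S0 l x m := by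
    intro m
    induction m with
    | zero => intro j hj; omega
    | succ m ih =>
      intro j hj
      rcases Nat.lt_succ_iff_lt_or_eq.1 hj with h | h
      · exact (ih j h).trans subset_union_left
      · subst h
        exact subset_union_right
  by_cases hz : ∀ j < r, tp a x v ≠ (l.drop j).toFinset
  · exact hmono k (mem_filter.2 ⟨hpl, hz⟩)
  · push Not at hz
    obtain ⟨j, _, hj⟩ := hz
    have hij : i ∈ l.drop j := by
      rw [hj, List.mem_toFinset] at hti
      exact hti
    have hjk : j < k := by
      by_contra hle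
      push Not at hle
      have h1 : i ∈ l.take j := (List.take_sublist_take_left hle).subset hi
      have h2 := List.disjoint_take_drop hnd (le_refl j)
      exact h2 h1 hij
    exact hG k j hjk (mem_filter.2 ⟨hpl, hj⟩)

lemma Rk_subset (a : Fin r → Fin (n + 1) → K) (S0 : Finset (FinitePlace K)) (l : List (Fin r))
    (x : Fin (n + 1) → K) (k : ℕ) : Rk a S0 l x k ⊆ pl a x \ S0 := by
  induction k with
  | zero => exact filter_subset _ _
  | succ k ih => exact union_subset ih (filter_subset _ _)

end Pool.Agent.H84.VH
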