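import Mathlib
import Pool.Agent.H84.VH.D

/-!
# The number of exceptions off the special subspaces
-/

set_option autoImplicit false

open NumberField Height Finset LinearAlgebra.Projectivization
open scoped Classical

namespace Pool.Agent.H84.VH

open Pool.Agent.H57R3.VJ

variable {K : Type*} [Field K] [NumberField K] {n r : ℕ}

lemma tot_le_N1 {a : Fin r → Fin (n + 1) → K} (ha0 : ∀ i, a i ≠ 0) {S S1 : Finset (FinitePlace K)}
    (hS : S ⊆ S1) {x : Fin (n + 1) → K} (hx : x ≠ 0) (hl : ∀ i, lin (a i) x ≠ 0) :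
    ∑ v ∈ pl a x \ S1, Real.log (NN v) ≤ N1 S a x := by
  unfold N1
  rw [finsum_eq_sum_of_support_subset _ (s := pl a x) (by
    intro v hv
    rw [Function.mem_support] at hv
    have : v ∉ S ∧ ∃ i, Meets (a i) x v := by
      by_contra hne
      exact hv (if_neg hne)
    exact mem_coe.2 ((mem_pl ha0 hx hl v).2 this.2))]
  calc ∑ v ∈ pl a x \ S1, Real.log (NN v) =
      ∑ v ∈ pl a x \ S1, if v ∉ S ∧ ∃ i, Meets (a i) x v then Real.log (NN v) else 0 := by
        apply sum_congr rfl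
        intro v hv
        rw [mem_sdiff, mem_pl ha0 hx hl] at hv
        rw [if_pos ⟨fun h => hv.2 (hS h), hv.1⟩]
    _ ≤ _ := by
        apply sum_le_sum_of_subset_of_nonneg sdiff_subset
        intro v _ _
        split_ifs
        · exact log_NN_nonneg v
        · exact le_rfl

omit [NumberField K] in
/-- relations with coefficients, for all sets of indices -/
lemma all_relations (a : Fin r → Fin (n + 1) → K) (A : Finset (Fin r)) :
    ∃ (s : Finset (Fin (n + 1) → K)) (c d : (Fin (n + 1) → K) → Fin r → K),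
      (∀ b ∈ s, b = ∑ i ∈ Aᶜ, c b i • a i) ∧ (∀ b ∈ s, b = ∑ i ∈ A, d b i • a i) ∧
      ∀ x, (∀ b ∈ s, lin b x = 0) → ∃ y z, x = y + z ∧ (∀ i ∈ A, lin (a i) y = 0) ∧
        ∀ i ∉ A, lin (a i) z = 0 := by
  obtain ⟨s, h1, h2⟩ := relations a A
  have hc : ∀ b : Fin (n + 1) → K, ∃ c : Fin r → K, b ∈ s → b = ∑ i ∈ Aᶜ, c i • a i := by
    intro b
    by_cases hb : b ∈ s
    · obtain ⟨c, hc⟩ := (h1 b hb).1
      exact ⟨c, fun _ => hc⟩
    · exact ⟨0, fun h => absurd h hb⟩
  have hd : ∀ b : Fin (n + 1) → K, ∃ d : Fin r → K, b ∈ s → b = ∑ i ∈ A, d i • a i := by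
    intro b
    by_cases hb : b ∈ s
    · obtain ⟨d, hd⟩ := (h1 b hb).2
      exact ⟨d, fun _ => hd⟩
    · exact ⟨0, fun h => absurd h hb⟩
  choose c hc using hc
  choose d hd using hd
  exact ⟨s, c, d, hc, hd, h2⟩

omit [NumberField K] in
/-- a point that is not special satisfies some relation non-trivially -/
lemma exists_rel {a : Fin r → Fin (n + 1) → K} {A : Finset (Fin r)} (hA : A.Nonempty)
    (hAc : Aᶜ.Nonempty) {s : Finset (Fin (n + 1) → K)}
    (hs : ∀ x, (∀ b ∈ s, lin b x = 0) → ∃ y z, x = y + z ∧ (∀ i ∈ A, lin (a i) y = 0) ∧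
        ∀ i ∉ A, lin (a i) z = 0) {x : Fin (n + 1) → K} (hl : ∀ i, lin (a i) x ≠ 0)
    (hx : ¬ Special a x) : ∃ b ∈ s, lin b x ≠ 0 := by
  by_contra hne
  push Not at hne
  obtain ⟨y, z, h1, h2, h3⟩ := hs x hne
  apply hx
  refine ⟨A, y, z, ?_, ?_, h1, h2, h3⟩
  · rintro rfl
    obtain ⟨i, hi⟩ := hAc
    apply hl i
    rw [h1, zero_add]
    exact h3 i (mem_compl.1 hi)
  · rintro rfl
    obtain ⟨i, hi⟩ := hA
    apply hl i
    rw [h1, add_zero]
    exact h2 i hi

lemma card_images {α : Type*} {β : Type*} [DecidableEq β] (PP : Finset α) (R : α → ℕ → β)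
    (G : α → ℕ → β) (U : β → β → β) (hR : ∀ P k, R P (k + 1) = U (R P k) (G P k)) (Z : ℝ) (hZ : 1 ≤ Z)
    (m : ℕ) (h0 : ∀ P ∈ PP, ∀ P' ∈ PP, R P 0 = R P' 0)
    (hstep : ∀ k < m, ∀ T : β, (((PP.filter fun P => R P k = T).image fun P => G P k).card : ℝ) ≤ Z) :
    ∀ k ≤ m, ((PP.image fun P => R P k).card : ℝ) ≤ Z ^ k := by
  intro k
  induction k with
  | zero =>
    intro _
    rw [pow_zero]
    have : (PP.image fun P => R P 0).card ≤ 1 := by
      rw [card_le_one]
      intro x hx y hy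
      obtain ⟨P, hP, rfl⟩ := mem_image.1 hx
      obtain ⟨P', hP', rfl⟩ := mem_image.1 hy
      exact h0 P hP P' hP'
    exact_mod_cast this
  | succ k ih =>
    intro hk
    have h1 := card_image_le_fibers PP (fun P => R P k) (fun P => R P (k + 1)) Z (by
      intro T _
      have hsub : ((PP.filter fun P => R P k = T).image fun P => R P (k + 1)) ⊆
          ((PP.filter fun P => R P k = T).image fun P => G P k).image (U T) := by
        intro x hx
        obtain ⟨P, hP, rfl⟩ := mem_image.1 hx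
        rw [mem_image]
        refine ⟨G P k, mem_image_of_mem _ hP, ?_⟩
        rw [hR, (mem_filter.1 hP).2]
      refine le_trans ?_ (hstep k (by omega) T)
      exact_mod_cast (card_le_card hsub).trans card_image_le)
    refine h1.trans ?_
    rw [pow_succ]
    exact mul_le_mul_of_nonneg_right (ih (by omega)) (by linarith)

/-- the points with a given order of the forms and given places of the other types -/
theorem fiber_bound (a : Fin r → Fin (n + 1) → K) (ha0 : ∀ i, a i ≠ 0) (hr : n + 1 ≤ r)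
    (S1 : Finset (FinitePlace K)) (hs1 : ∀ v ∉ S1, ∀ i, sv v (a i) = 1)
    (hs2 : ∀ v ∉ S1, ∀ x : Fin (n + 1) → K, x ≠ 0 → (univ.filter fun i => Meets (a i) x v).card ≤ n)
    (B X V δ C5 : ℝ) (hδ : 0 < δ) (hB : 1 ≤ B) (hC5 : 0 < C5)
    (hX : X = C5 * B ^ δ * V ^ δ) (hX1 : 1 ≤ X)
    (hstep : ∀ A : Finset (Fin r), A.Nonempty → Aᶜ.Nonempty → ∀ Q : Finset (FinitePlace K),
      ∀ PP : Finset (ℙ K (Fin (n + 1) → K)), (∀ P ∈ PP, (∀ i, lin (a i) P.rep ≠ 0) ∧
        ¬ Special a P.rep ∧ mulHeight P.rep ≤ B ∧ (∀ v ∉ Q, ∀ i ∉ A, v (lin (a i) P.rep) = sv v P.rep)) →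
      ((PP.image fun P => GG a S1 A P.rep).card : ℝ) ≤
        (C5 * B ^ δ * (∏ v ∈ Q, NN v) ^ δ) ^ (r + 1))
    (hpt : ∀ I : Finset (Fin r), I.card = n + 1 → ∀ Q : Finset (FinitePlace K),
      ∀ PP : Finset (ℙ K (Fin (n + 1) → K)), (∀ P ∈ PP, (∀ i, lin (a i) P.rep ≠ 0) ∧ mulHeight P.rep ≤ B ∧
        ∀ v ∉ Q, ∀ i ∈ I, v (lin (a i) P.rep) = sv v P.rep) →
      (PP.card : ℝ) ≤ (C5 * B ^ δ * (∏ v ∈ Q, NN v) ^ δ) ^ (n + 1))
    (l : List (Fin r)) (hnd : l.Nodup) (hlu : l.toFinset = univ) (Q0 : Finset (FinitePlace K))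
    (PF : Finset (ℙ K (Fin (n + 1) → K)))
    (hPF : ∀ P ∈ PF, (∀ i, lin (a i) P.rep ≠ 0) ∧ ¬ Special a P.rep ∧ mulHeight P.rep ≤ B ∧
      Qz a S1 l P.rep = Q0 ∧ ∏ v ∈ (pl a P.rep \ S1) ∪ S1, NN v ≤ V) :
    (PF.card : ℝ) ≤ (X ^ (r + 2)) ^ (n + 1) := by
  have hlen : l.length = r := by
    rw [← List.toFinset_card_of_nodup hnd, hlu, card_univ, Fintype.card_fin]
  have hZ1 : 1 ≤ X ^ (r + 1) := one_le_pow₀ hX1
  have hRprod : ∀ P ∈ PF, ∀ k, ∏ v ∈ Rk a S1 l P.rep k ∪ S1, NN v ≤ V := by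
    intro P hP k
    have hsub : Rk a S1 l P.rep k ∪ S1 ⊆ (pl a P.rep \ S1) ∪ S1 :=
      union_subset_union (Rk_subset a S1 l P.rep k) (Subset.refl _)
    refine le_trans ?_ (hPF P hP).2.2.2.2
    rw [← prod_sdiff hsub]
    apply le_mul_of_one_le_left (prod_nonneg fun v _ => (NN_pos v).le)
    exact Finset.one_le_prod fun v _ => by linarith [two_le_NN v]
  have hXT : ∀ T : Finset (FinitePlace K), ∏ v ∈ T, NN v ≤ V →
      C5 * B ^ δ * (∏ v ∈ T, NN v) ^ δ ≤ X := by
    intro T hT
    rw [hX]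
    apply mul_le_mul_of_nonneg_left _ (by positivity)
    exact Real.rpow_le_rpow (prod_nonneg fun v _ => (NN_pos v).le) hT hδ.le
  have hT0 : ∀ T : Finset (FinitePlace K), 0 ≤ C5 * B ^ δ * (∏ v ∈ T, NN v) ^ δ := by
    intro T
    have : 0 ≤ ∏ v ∈ T, NN v := prod_nonneg fun v _ => (NN_pos v).le
    positivity
  -- the number of sets of known places
  have hRimg : ((PF.image fun P => Rk a S1 l P.rep (n + 1)).card : ℝ) ≤ (X ^ (r + 1)) ^ (n + 1) := by
    refine card_images PF (fun P k => Rk a S1 l P.rep k)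
      (fun P k => GG a S1 (l.drop k).toFinset P.rep) (fun s t => s ∪ t) (fun P k => rfl) _ hZ1 (n + 1)
      ?_ ?_ (n + 1) le_rfl
    · intro P hP P' hP'
      show Qz a S1 l P.rep = Qz a S1 l P'.rep
      rw [(hPF P hP).2.2.2.1, (hPF P' hP').2.2.2.1]
    · intro k hk T
      rcases Nat.eq_zero_or_pos k with hk0 | hk0
      · subst hk0
        have hsub : ((PF.filter fun P => Rk a S1 l P.rep 0 = T).image fun P =>
            GG a S1 (l.drop 0).toFinset P.rep) ⊆ {∅} := by
          intro G hG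
          obtain ⟨P, hP, rfl⟩ := mem_image.1 hG
          rw [mem_singleton, List.drop_zero, hlu]
          unfold GG
          rw [filter_eq_empty_iff]
          intro v hv hu
          have h1 := hs2 v (mem_sdiff.1 hv).2 P.rep P.rep_nonzero
          have h2 : (tp a P.rep v).card = r := by rw [hu, card_univ, Fintype.card_fin]
          unfold tp at h2
          omega
        have h1 : ((PF.filter fun P => Rk a S1 l P.rep 0 = T).image fun P =>
            GG a S1 (l.drop 0).toFinset P.rep).card ≤ 1 := card_le_card hsub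
        exact le_trans (by exact_mod_cast h1) hZ1
      · have hAcard : (l.drop k).toFinset.card = r - k := card_drop hnd hlu k
        have hAne : (l.drop k).toFinset.Nonempty := by rw [← card_pos, hAcard]; omega
        have hAc : ((l.drop k).toFinset)ᶜ.Nonempty := by
          rw [← card_pos, card_compl, Fintype.card_fin, hAcard]; omega
        have hiA : ∀ i ∉ (l.drop k).toFinset, i ∈ l.take k := by
          intro i hi
          have h1 : i ∈ l := by
            have : i ∈ l.toFinset := hlu ▸ mem_univ i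
            exact List.mem_toFinset.1 this
          rw [← List.take_append_drop k l, List.mem_append] at h1
          rcases h1 with h | h
          · exact h
          · exact absurd (List.mem_toFinset.2 h) hi
        rcases (PF.filter fun P => Rk a S1 l P.rep k = T).eq_empty_or_nonempty with hemp | ⟨P1, hP1⟩
        · rw [hemp, image_empty, card_empty, Nat.cast_zero]
          linarith
        · have hT : ∏ v ∈ T ∪ S1, NN v ≤ V := by
            obtain ⟨h1, h2⟩ := mem_filter.1 hP1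
            rw [← h2]
            exact hRprod P1 h1 k
          have h1 := hstep (l.drop k).toFinset hAne hAc (T ∪ S1)
            (PF.filter fun P => Rk a S1 l P.rep k = T) (by
            intro P hP
            obtain ⟨h1, h2⟩ := mem_filter.1 hP
            obtain ⟨g1, g2, g3, _⟩ := hPF P h1
            refine ⟨g1, g2, g3, ?_⟩
            intro v hv i hi
            rw [← h2] at hv
            exact unit_of_notMem ha0 hs1 hnd P.rep_nonzero g1 k hv (hiA i hi))
          exact h1.trans (pow_le_pow_left₀ (hT0 _) (hXT _ hT) _)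
  -- the points with given sets of places
  have hpts : ∀ T ∈ PF.image (fun P => Rk a S1 l P.rep (n + 1)),
      (PF.filter fun P => Rk a S1 l P.rep (n + 1) = T).card ≤ ⌊X ^ (n + 1)⌋₊ := by
    intro T hT
    apply Nat.le_floor
    obtain ⟨P1, hP1, hT1⟩ := mem_image.1 hT
    have hT : ∏ v ∈ T ∪ S1, NN v ≤ V := by
      rw [← hT1]
      exact hRprod P1 hP1 (n + 1)
    have hIcard : (l.take (n + 1)).toFinset.card = n + 1 := by
      rw [List.toFinset_card_of_nodup (hnd.sublist (List.take_sublist _ l)), List.length_take, hlen]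
      omega
    have h1 := hpt (l.take (n + 1)).toFinset hIcard (T ∪ S1)
      (PF.filter fun P => Rk a S1 l P.rep (n + 1) = T) (by
        intro P hP
        obtain ⟨k1, k2⟩ := mem_filter.1 hP
        obtain ⟨g1, g2, g3, _⟩ := hPF P k1
        refine ⟨g1, g3, ?_⟩
        intro v hv i hi
        rw [← k2] at hv
        exact unit_of_notMem ha0 hs1 hnd P.rep_nonzero g1 (n + 1) hv (List.mem_toFinset.1 hi))
    exact h1.trans (pow_le_pow_left₀ (hT0 _) (hXT _ hT) _)
  have htotal := card_le_mul_card_image PF ⌊X ^ (n + 1)⌋₊ hpts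
  calc (PF.card : ℝ) ≤ ((⌊X ^ (n + 1)⌋₊ * (PF.image fun P => Rk a S1 l P.rep (n + 1)).card : ℕ) : ℝ) := by
        exact_mod_cast htotal
    _ = (⌊X ^ (n + 1)⌋₊ : ℝ) * ((PF.image fun P => Rk a S1 l P.rep (n + 1)).card : ℝ) := by
        push_cast; rfl
    _ ≤ X ^ (n + 1) * (X ^ (r + 1)) ^ (n + 1) :=
        mul_le_mul (Nat.floor_le (by positivity)) hRimg (Nat.cast_nonneg _) (by positivity)
    _ = (X ^ (r + 2)) ^ (n + 1) := by rw [← mul_pow]; congr 1; ring

end Pool.Agent.H84.VH
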