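import Mathlib
import Pool.Agent.H84.VH.E1
import Pool.Graph.R_seed8.H57R3.VJ.L

/-!
# The number of exceptions off the special subspaces
-/

set_option autoImplicit false

open NumberField Height Finset LinearAlgebra.Projectivization
open scoped Classical

namespace Pool.Agent.H84.VH

open Pool.Agent.H57R3.VJ

variable {K : Type*} [Field K] [NumberField K] {n r : ℕ}

lemma final_calc (B E W C5 C2 L X Y κ θ δ δ' : ℝ) (n r : ℕ) (hB0 : 0 < B) (hE0 : 0 < E) (hW0 : 0 < W)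
    (hθ : 0 ≤ θ)
    (hδ' : δ' = δ / (((n + 1 : ℕ) : ℝ) * ((r + 2 : ℕ) : ℝ) * (1 + θ)))
    (hX : X = C5 * B ^ δ' * (E * B ^ θ * W) ^ δ') (hY : Y = E * B ^ κ) (hX1 : 1 ≤ X)
    (p q : ℕ) (hp : p ≤ ⌊(X ^ (r + 2)) ^ (n + 1)⌋₊ * q) (hq : (q : ℝ) ≤ L * (C2 * Y)) :
    (p : ℝ) ≤ L * (C2 * E) * ((C5 * (E * W) ^ δ') ^ (r + 2)) ^ (n + 1) * B ^ (κ + δ) := by
  have hX0 : 0 ≤ X := zero_le_one.trans hX1
  have hXe : X = C5 * (E * W) ^ δ' * B ^ (δ' * (1 + θ)) := by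
    rw [hX, show E * B ^ θ * W = (E * W) * B ^ θ by ring,
      Real.mul_rpow (by positivity) (by positivity), ← Real.rpow_mul hB0.le,
      show δ' * (1 + θ) = δ' + θ * δ' by ring, Real.rpow_add hB0]
    ring
  have e2 : (X ^ (r + 2)) ^ (n + 1) =
      ((C5 * (E * W) ^ δ') ^ (r + 2)) ^ (n + 1) * B ^ δ := by
    rw [hXe, mul_pow, mul_pow, ← pow_mul (B ^ (δ' * (1 + θ))), ← Real.rpow_natCast (B ^ (δ' * (1 + θ))),
      ← Real.rpow_mul hB0.le]
    congr 2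
    rw [hδ']
    have : (1 + θ) ≠ 0 := by positivity
    push_cast
    field_simp
  calc (p : ℝ) ≤ ((⌊(X ^ (r + 2)) ^ (n + 1)⌋₊ * q : ℕ) : ℝ) := by
        exact_mod_cast hp
    _ = (⌊(X ^ (r + 2)) ^ (n + 1)⌋₊ : ℝ) * (q : ℝ) := by push_cast; rfl
    _ ≤ (X ^ (r + 2)) ^ (n + 1) * (L * (C2 * Y)) :=
        mul_le_mul (Nat.floor_le (by positivity)) hq (Nat.cast_nonneg _) (by positivity)
    _ = L * (C2 * E) * ((C5 * (E * W) ^ δ') ^ (r + 2)) ^ (n + 1) * B ^ (κ + δ) := by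
        rw [e2, hY, Real.rpow_add hB0]
        ring

theorem off_special {a : Fin r → Fin (n + 1) → K} (ha : GenPos a) (hr : n + 1 ≤ r)
    (S : Finset (FinitePlace K)) (θ C : ℝ) (hθ : 0 ≤ θ) {δ : ℝ} (hδ : 0 < δ) :
    ∃ M : ℝ, ∀ B : ℝ, 1 ≤ B → ∀ PP : Finset (ℙ K (Fin (n + 1) → K)),
      (∀ P ∈ PP, (∀ i, lin (a i) P.rep ≠ 0) ∧ ¬ Special a P.rep ∧ mulHeight P.rep ≤ B ∧
        N1 S a P.rep ≤ θ * Real.log (mulHeight P.rep) + C) →
      (PP.card : ℝ) ≤ M * B ^ (θ * (1 - 1 / (r.choose (r / 2) : ℝ)) + δ) := by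
  have ha0 := fun i => ha.ne_zero hr i
  obtain ⟨S0, hS, hs1, hs2⟩ := bad_exists ha ha0 S
  choose s c d hc hd hrel using all_relations a
  -- the bad places
  have hbad : (⋃ A : Finset (Fin r), ⋃ b ∈ (s A : Set (Fin (n + 1) → K)), ⋃ i : Fin r,
      {v : FinitePlace K | 1 < v (d A b i)}).Finite :=
    Set.finite_iUnion fun A => (s A).finite_toSet.biUnion fun b _ =>
      Set.finite_iUnion fun i => gt_one_fin _
  set S1 : Finset (FinitePlace K) := S0 ∪ hbad.toFinset with hS1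
  have hS01 : S0 ⊆ S1 := subset_union_left
  have hSS1 : S ⊆ S1 := hS.trans hS01
  have hs1' : ∀ v ∉ S1, ∀ i, sv v (a i) = 1 := fun v hv => hs1 v fun h => hv (hS01 h)
  have hdS : ∀ A : Finset (Fin r), ∀ v ∉ S1, ∀ b ∈ s A, ∀ i, v (d A b i) ≤ 1 := by
    intro A v hv b hb i
    by_contra hne
    push Not at hne
    apply hv
    rw [hS1, mem_union, Set.Finite.mem_toFinset]
    right
    simp only [Set.mem_iUnion]
    exact ⟨A, b, hb, i, hne⟩
  -- constants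
  set mm : ℝ := (r.choose (r / 2) : ℝ) with hmm
  have hmm1 : 1 ≤ mm := by
    rw [hmm]
    exact_mod_cast Nat.choose_pos (Nat.div_le_self r 2)
  have hfrac : 0 ≤ 1 - 1 / mm := by
    have : 1 / mm ≤ 1 := by rw [div_le_one (by linarith)]; exact hmm1
    linarith
  have hfrac1 : 1 - 1 / mm ≤ 1 := by
    have : 0 ≤ 1 / mm := by positivity
    linarith
  set κ : ℝ := θ * (1 - 1 / mm) with hκ
  have hκ0 : 0 ≤ κ := mul_nonneg hθ hfrac
  set δ' : ℝ := δ / (((n + 1 : ℕ) : ℝ) * ((r + 2 : ℕ) : ℝ) * (1 + θ)) with hδ'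
  have hn1 : (0 : ℝ) < ((n + 1 : ℕ) : ℝ) := by positivity
  have hr2 : (0 : ℝ) < ((r + 2 : ℕ) : ℝ) := by positivity
  have hδ'0 : 0 < δ' := by positivity
  have hstepA : ∀ A : Finset (Fin r), ∃ C : ℝ, 1 ≤ C ∧ (Aᶜ.Nonempty → ∀ B : ℝ, 1 ≤ B →
      ∀ Q : Finset (FinitePlace K),
      ∀ PP : Finset (ℙ K (Fin (n + 1) → K)), (∀ P ∈ PP, (∀ i, lin (a i) P.rep ≠ 0) ∧
        mulHeight P.rep ≤ B ∧ (∀ v ∉ Q, ∀ i ∉ A, v (lin (a i) P.rep) = sv v P.rep) ∧
        ∃ b ∈ s A, lin b P.rep ≠ 0) →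
      ((PP.image fun P => GG a S1 A P.rep).card : ℝ) ≤
        (C * B ^ δ' * (∏ v ∈ Q, NN v) ^ δ') ^ (r + 1)) := by
    intro A
    by_cases hA : Aᶜ.Nonempty
    · obtain ⟨C, h1, h2⟩ := step a ha0 S1 hs1' A hA (s A) (c A) (d A) (hc A) (hd A) (hdS A) hδ'0
      exact ⟨C, h1, fun _ => h2⟩
    · exact ⟨1, le_rfl, fun h => absurd h hA⟩
  choose CA hCA1 hCA using hstepA
  obtain ⟨C4, hC4, h4⟩ := fiber_card a ha hδ'0
  obtain ⟨C2, hC2, h2⟩ := sets_card K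
  set C5 : ℝ := 1 + C4 + ∑ A, CA A with hC5
  have hsumCA : 0 ≤ ∑ A, CA A := sum_nonneg fun A _ => by linarith [hCA1 A]
  have hC51 : 1 ≤ C5 := by linarith
  have hC45 : C4 ≤ C5 := by linarith
  have hC50 : 0 < C5 := by linarith
  have hCA5 : ∀ A, CA A ≤ C5 := by
    intro A
    have : CA A ≤ ∑ A, CA A := single_le_sum (f := CA) (fun B _ => by linarith [hCA1 B]) (mem_univ A)
    linarith
  set W : ℝ := ∏ v ∈ S1, NN v with hW
  have hW1 : 1 ≤ W := Finset.one_le_prod fun v _ => by linarith [two_le_NN v]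
  have hW0 : 0 ≤ W := by linarith
  set E : ℝ := Real.exp |C| with hE
  have hE1 : 1 ≤ E := Real.one_le_exp (abs_nonneg C)
  set L : ℝ := (Fintype.card {l : List (Fin r) // l.Nodup} : ℝ) with hL
  refine ⟨L * (C2 * E) * ((C5 * (E * W) ^ δ') ^ (r + 2)) ^ (n + 1), fun B hB PP hPP => ?_⟩
  have hB0 : 0 < B := zero_lt_one.trans_le hB
  have hBp : ∀ t : ℝ, 0 < B ^ t := fun t => Real.rpow_pos_of_pos hB0 t
  have hE00 : 0 < E := Real.exp_pos _
  have hlB : 0 ≤ Real.log B := Real.log_nonneg hB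
  -- bounds for the products
  have htot : ∀ P ∈ PP, ∑ v ∈ pl a P.rep \ S1, Real.log (NN v) ≤ θ * Real.log B + |C| := by
    intro P hP
    obtain ⟨g1, _, g3, g4⟩ := hPP P hP
    have hlog : Real.log (mulHeight P.rep) ≤ Real.log B := Real.log_le_log (mulHeight_pos _) g3
    refine (tot_le_N1 ha0 hSS1 P.rep_nonzero g1).trans (g4.trans ?_)
    exact add_le_add (mul_le_mul_of_nonneg_left hlog hθ) (le_abs_self C)
  have hprod : ∀ P ∈ PP, ∏ v ∈ pl a P.rep \ S1, NN v ≤ E * B ^ θ := by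
    intro P hP
    have h1 := htot P hP
    rw [← Real.log_prod (fun v _ => (NN_pos v).ne')] at h1
    have hp : 0 < ∏ v ∈ pl a P.rep \ S1, NN v := prod_pos fun v _ => NN_pos v
    rw [← Real.log_le_log_iff hp (mul_pos hE00 (hBp θ)), Real.log_mul hE00.ne' (hBp θ).ne', hE,
      Real.log_exp, Real.log_rpow hB0]
    linarith
  set Y : ℝ := E * B ^ κ with hY
  have hBκ1 : 1 ≤ B ^ κ := Real.one_le_rpow hB hκ0
  have hBθ1 : 1 ≤ B ^ θ := Real.one_le_rpow hB hθ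
  have hY1 : 1 ≤ Y := one_le_mul_of_one_le_of_one_le hE1 hBκ1
  have hchoice : ∀ P : ℙ K (Fin (n + 1) → K), ∃ l : {l : List (Fin r) // l.Nodup},
      P ∈ PP → l.1.toFinset = univ ∧ ∏ v ∈ Qz a S1 l.1 P.rep, NN v ≤ Y := by
    intro P
    by_cases hP : P ∈ PP
    · obtain ⟨g1, _, _, _⟩ := hPP P hP
      obtain ⟨l, k1, k2⟩ := chain_choice a ha0 S1 P.rep_nonzero g1
      refine ⟨l, fun _ => ⟨k1, ?_⟩⟩
      rw [← Real.log_prod (fun v _ => (NN_pos v).ne')] at k2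
      have hp : 0 < ∏ v ∈ Qz a S1 l.1 P.rep, NN v := prod_pos fun v _ => NN_pos v
      rw [← Real.log_le_log_iff hp (mul_pos hE00 (hBp κ)), Real.log_mul hE00.ne' (hBp κ).ne',
        hE, Real.log_exp, Real.log_rpow hB0]
      refine k2.trans ?_
      calc (1 - 1 / mm) * ∑ v ∈ pl a P.rep \ S1, Real.log (NN v) ≤
          (1 - 1 / mm) * (θ * Real.log B + |C|) := mul_le_mul_of_nonneg_left (htot P hP) hfrac
        _ = (1 - 1 / mm) * |C| + κ * Real.log B := by rw [hκ]; ring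
        _ ≤ 1 * |C| + κ * Real.log B := by
            have := mul_le_mul_of_nonneg_right hfrac1 (abs_nonneg C)
            linarith
        _ = _ := by rw [one_mul]
    · exact ⟨⟨[], List.nodup_nil⟩, fun h => absurd h hP⟩
  choose g hgP using hchoice
  -- the first code
  set Φ : ℙ K (Fin (n + 1) → K) → {l : List (Fin r) // l.Nodup} × Finset (FinitePlace K) :=
    fun P => (g P, Qz a S1 (g P).1 P.rep) with hΦ
  have hΦcard : ((PP.image Φ).card : ℝ) ≤ L * (C2 * Y) := by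
    have hsub : PP.image Φ ⊆ (univ : Finset {l : List (Fin r) // l.Nodup}) ×ˢ
        (PP.image fun P => Qz a S1 (g P).1 P.rep) := by
      intro u hu
      obtain ⟨P, hP, rfl⟩ := mem_image.1 hu
      rw [mem_product]
      exact ⟨mem_univ _, mem_image_of_mem _ hP⟩
    have h3 := card_le_card hsub
    rw [card_product, card_univ] at h3
    have h5 : ((PP.image fun P => Qz a S1 (g P).1 P.rep).card : ℝ) ≤ C2 * Y := by
      apply h2 Y hY1
      intro Q hQ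
      obtain ⟨P, hP, rfl⟩ := mem_image.1 hQ
      exact (hgP P hP).2
    calc ((PP.image Φ).card : ℝ) ≤ ((Fintype.card {l : List (Fin r) // l.Nodup} *
          (PP.image fun P => Qz a S1 (g P).1 P.rep).card : ℕ) : ℝ) := by exact_mod_cast h3
      _ = L * ((PP.image fun P => Qz a S1 (g P).1 P.rep).card : ℝ) := by push_cast; rfl
      _ ≤ _ := mul_le_mul_of_nonneg_left h5 (Nat.cast_nonneg _)
  set X : ℝ := C5 * B ^ δ' * (E * B ^ θ * W) ^ δ' with hX
  have hBδ1 : 1 ≤ B ^ δ' := Real.one_le_rpow hB hδ'0.le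
  have hEBW : 1 ≤ E * B ^ θ * W :=
    one_le_mul_of_one_le_of_one_le (one_le_mul_of_one_le_of_one_le hE1 hBθ1) hW1
  have hEBWδ : 1 ≤ (E * B ^ θ * W) ^ δ' := Real.one_le_rpow hEBW hδ'0.le
  have hX1 : 1 ≤ X :=
    one_le_mul_of_one_le_of_one_le (one_le_mul_of_one_le_of_one_le hC51 hBδ1) hEBWδ
  have hXT0 : ∀ Q : Finset (FinitePlace K), 0 ≤ ∏ v ∈ Q, NN v := fun Q =>
    prod_nonneg fun v _ => (NN_pos v).le
  -- the fibres
  have hfib : ∀ u ∈ PP.image Φ, (PP.filter fun P => Φ P = u).card ≤ ⌊(X ^ (r + 2)) ^ (n + 1)⌋₊ := by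
    intro u hu
    apply Nat.le_floor
    obtain ⟨P0, hP0, hu0⟩ := mem_image.1 hu
    refine fiber_bound a ha0 hr S1 hs1' (fun v hv => hs2 v fun h => hv (hS01 h)) B X (E * B ^ θ * W) δ' C5
      hδ'0 hB hC50 hX hX1 ?_ ?_ (g P0).1 (g P0).2 (hgP P0 hP0).1 (Qz a S1 (g P0).1 P0.rep) _ ?_
    · intro A hA hAc Q PP' hPP'
      refine (hCA A hAc B hB Q PP' fun P hP => ?_).trans ?_
      · obtain ⟨g1, g2, g3, g4⟩ := hPP' P hP
        exact ⟨g1, g3, g4, exists_rel hA hAc (hrel A) g1 g2⟩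
      · have h0 := hXT0 Q
        have h1 : 0 ≤ CA A := zero_le_one.trans (hCA1 A)
        apply pow_le_pow_left₀ (mul_nonneg (mul_nonneg h1 (hBp δ').le) (Real.rpow_nonneg h0 _))
        apply mul_le_mul_of_nonneg_right _ (Real.rpow_nonneg h0 _)
        exact mul_le_mul_of_nonneg_right (hCA5 A) (hBp δ').le
    · intro I hI Q PP' hPP'
      refine (h4 B hB I hI Q PP' hPP').trans ?_
      have h0 := hXT0 Q
      apply pow_le_pow_left₀ (mul_nonneg (mul_nonneg hC4.le (hBp δ').le) (Real.rpow_nonneg h0 _))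
      apply mul_le_mul_of_nonneg_right _ (Real.rpow_nonneg h0 _)
      exact mul_le_mul_of_nonneg_right hC45 (Real.rpow_nonneg hB0.le _)
    · intro P hP
      obtain ⟨hP1, hP2⟩ := mem_filter.1 hP
      rw [← hu0] at hP2
      simp only [hΦ, Prod.mk.injEq] at hP2
      obtain ⟨g1, g2, g3, g4⟩ := hPP P hP1
      refine ⟨g1, g2, g3, ?_, ?_⟩
      · have := hP2.2
        rw [hP2.1] at this
        exact this
      · rw [prod_union sdiff_disjoint]
        exact mul_le_mul_of_nonneg_right (hprod P hP1) hW0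
  have htot2 := card_le_mul_card_image PP ⌊(X ^ (r + 2)) ^ (n + 1)⌋₊ hfib
  exact final_calc B E W C5 C2 L X Y κ θ δ δ' n r hB0 hE00 (zero_lt_one.trans_le hW1)
    hθ hδ' hX hY hX1 _ _ htot2 hΦcard

end Pool.Agent.H84.VH
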