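import Mathlib
import Pool.Agent.H84.VH.F2

/-!
# Points on the special subspaces: the lower bound
-/

set_option autoImplicit false

open NumberField Height Finset LinearAlgebra.Projectivization
open scoped Classical

namespace Pool.Agent.H84.VH

open Pool.Agent.H57R3.VJ

variable {K : Type*} [Field K] [NumberField K] {n r : ℕ}

lemma lin_smul_add (b y z : Fin (n + 1) → K) (s t : K) :
    lin b (s • y + t • z) = s * lin b y + t * lin b z := by
  have := (linM b).map_add (s • y) (t • z)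
  rw [map_smul, map_smul] at this
  simpa using this

lemma lin_smul (b y : Fin (n + 1) → K) (s : K) : lin b (s • y) = s * lin b y := by
  simp only [lin, Pi.smul_apply, smul_eq_mul, mul_sum]
  exact sum_congr rfl fun i _ => by ring

lemma sv_smul (v : FinitePlace K) (y : Fin (n + 1) → K) (s : K) : sv v (s • y) = v s * sv v y := by
  unfold sv
  rw [Real.mul_iSup_of_nonneg (apply_nonneg _ _)]
  congr 1
  ext j
  rw [Pi.smul_apply, smul_eq_mul, map_mul]

lemma meets_smul (b x : Fin (n + 1) → K) (v : FinitePlace K) {s : K} (hs : s ≠ 0) :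
    Meets b (s • x) v ↔ Meets b x v := by
  unfold Meets
  rw [lin_smul, sv_smul, map_mul]
  have h : 0 < v s := FinitePlace.pos_iff.2 hs
  constructor
  · intro h1
    have : v s * v (lin b x) < v s * (sv v b * sv v x) := by
      calc _ < _ := h1
        _ = _ := by ring
    exact lt_of_mul_lt_mul_left this h.le
  · intro h1
    calc v s * v (lin b x) < v s * (sv v b * sv v x) := mul_lt_mul_of_pos_left h1 h
      _ = _ := by ring

lemma N1_smul (S : Finset (FinitePlace K)) (a : Fin r → Fin (n + 1) → K) (x : Fin (n + 1) → K) {s : K}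
    (hs : s ≠ 0) : N1 S a (s • x) = N1 S a x := by
  unfold N1
  simp only [meets_smul _ _ _ hs]

lemma Special_smul (a : Fin r → Fin (n + 1) → K) {x : Fin (n + 1) → K} {s : K} (hs : s ≠ 0)
    (h : Special a x) : Special a (s • x) := by
  obtain ⟨A, y, z, hy, hz, rfl, h1, h2⟩ := h
  refine ⟨A, s • y, s • z, smul_ne_zero hs hy, smul_ne_zero hs hz, smul_add _ _ _, ?_, ?_⟩
  · intro i hi; rw [lin_smul, h1 i hi, mul_zero]
  · intro i hi; rw [lin_smul, h2 i hi, mul_zero]

/-- the data of the construction -/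
structure Dat (a : Fin r → Fin (n + 1) → K) (A : Finset (Fin r)) (y z : Fin (n + 1) → K) : Prop where
  hy : ∀ i ∈ A, lin (a i) y = 0
  hy' : ∀ i ∉ A, lin (a i) y ≠ 0
  hz : ∀ i ∉ A, lin (a i) z = 0
  hz' : ∀ i ∈ A, lin (a i) z ≠ 0
  ne : A.Nonempty
  ne' : Aᶜ.Nonempty

/-- the points -/
noncomputable def xx (y z : Fin (n + 1) → K) (k : ℕ) (t : Ix K → ℕ) : Fin (n + 1) → K :=
  io ((2 : 𝓞 K) ^ k) • y + io (bb t) • z

lemma two_pow_ne (k : ℕ) : (io ((2 : 𝓞 K) ^ k) : K) ≠ 0 := by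
  rw [map_pow, map_ofNat]
  exact pow_ne_zero _ two_ne_zero

section
variable {a : Fin r → Fin (n + 1) → K} {A : Finset (Fin r)} {y z : Fin (n + 1) → K}

lemma Dat.lin_in (D : Dat a A y z) (k : ℕ) (t : Ix K → ℕ) {i : Fin r} (hi : i ∈ A) :
    lin (a i) (xx y z k t) = io (bb t) * lin (a i) z := by
  unfold xx
  rw [lin_smul_add, D.hy i hi, mul_zero, zero_add]

lemma Dat.lin_out (D : Dat a A y z) (k : ℕ) (t : Ix K → ℕ) {i : Fin r} (hi : i ∉ A) :
    lin (a i) (xx y z k t) = io ((2 : 𝓞 K) ^ k) * lin (a i) y := by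
  unfold xx
  rw [lin_smul_add, D.hz i hi, mul_zero, add_zero]

lemma Dat.lin_ne (D : Dat a A y z) (k : ℕ) (t : Ix K → ℕ) (i : Fin r) :
    lin (a i) (xx y z k t) ≠ 0 := by
  by_cases hi : i ∈ A
  · rw [D.lin_in k t hi]
    exact mul_ne_zero (bb_ne_zero t) (D.hz' i hi)
  · rw [D.lin_out k t hi]
    exact mul_ne_zero (two_pow_ne k) (D.hy' i hi)

lemma Dat.x_ne (D : Dat a A y z) (k : ℕ) (t : Ix K → ℕ) : xx y z k t ≠ 0 := by
  intro h
  obtain ⟨i, hi⟩ := D.ne
  apply D.lin_ne k t i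
  rw [h]
  simp [lin]

lemma Dat.special (D : Dat a A y z) (k : ℕ) (t : Ix K → ℕ) : Special a (xx y z k t) := by
  refine ⟨A, _, _, ?_, ?_, rfl, ?_, ?_⟩
  · obtain ⟨i, hi⟩ := D.ne'
    intro h
    have := D.lin_out k t (mem_compl.1 hi)
    apply mul_ne_zero (two_pow_ne k) (D.hy' i (mem_compl.1 hi))
    rw [← lin_smul, h]
    simp [lin]
  · obtain ⟨i, hi⟩ := D.ne
    intro h
    apply mul_ne_zero (bb_ne_zero t) (D.hz' i hi)
    rw [← lin_smul, h]
    simp [lin]
  · intro i hi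
    rw [lin_smul, D.hy i hi, mul_zero]
  · intro i hi
    rw [lin_smul, D.hz i hi, mul_zero]

/-- the counting function -/
lemma Dat.counting (D : Dat a A y z) (ha0 : ∀ i, a i ≠ 0) (S : Finset (FinitePlace K)) :
    ∃ c : ℝ, ∀ (k : ℕ) (t : Ix K → ℕ),
      N1 S a (xx y z k t) ≤ c + Real.log (mulHeight₁ (io (bb t))) := by
  have h1 : ∀ i, {v : FinitePlace K | sv v (a i) ≠ 1}.Finite := fun i => sv_fin (ha0 i)
  have h2 : {v : FinitePlace K | v (2 : K) ≠ 1}.Finite := FinitePlace.hasFiniteMulSupport two_ne_zero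
  have h3 : (⋃ i ∈ (A : Set (Fin r)), {v : FinitePlace K | v (lin (a i) z) ≠ 1}).Finite :=
    A.finite_toSet.biUnion fun i hi => FinitePlace.hasFiniteMulSupport (D.hz' i hi)
  have h4 : (⋃ i ∈ ((Aᶜ : Finset (Fin r)) : Set (Fin r)), {v : FinitePlace K | v (lin (a i) y) ≠ 1}).Finite :=
    (Aᶜ).finite_toSet.biUnion fun i hi => FinitePlace.hasFiniteMulSupport (D.hy' i (mem_compl.1 hi))
  have h5 : (⋃ j, {v : FinitePlace K | 1 < v (y j)}).Finite := Set.finite_iUnion fun j => gt_one_fin _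
  have h6 : (⋃ j, {v : FinitePlace K | 1 < v (z j)}).Finite := Set.finite_iUnion fun j => gt_one_fin _
  have h7 : (⋃ i, {v : FinitePlace K | sv v (a i) ≠ 1}).Finite := Set.finite_iUnion h1
  set S2 : Finset (FinitePlace K) := h7.toFinset ∪ h2.toFinset ∪ h3.toFinset ∪ h4.toFinset ∪
    h5.toFinset ∪ h6.toFinset with hS2
  refine ⟨∑ v ∈ S2, Real.log (NN v), fun k t => N1_le S2 (bb_ne_zero t) ?_⟩
  intro v hv hm
  simp only [hS2, mem_union, not_or, Set.Finite.mem_toFinset, Set.mem_iUnion, not_exists,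
    Set.mem_ofPred_eq, not_not, not_lt] at hv
  obtain ⟨⟨⟨⟨⟨e7, e2⟩, e3⟩, e4⟩, e5⟩, e6⟩ := hv
  have e2' : v (io ((2 : 𝓞 K) ^ k)) = 1 := by
    rw [map_pow, map_pow, map_ofNat, e2, one_pow]
  obtain ⟨j0, hj0⟩ := D.ne'
  have hsv : sv v (xx y z k t) = 1 := by
    apply le_antisymm
    · obtain ⟨j, hj⟩ := sv_att v (xx y z k t)
      rw [hj]
      show v (io ((2 : 𝓞 K) ^ k) * y j + io (bb t) * z j) ≤ 1
      refine (FinitePlace.add_le v _ _).trans (max_le ?_ ?_)
      · rw [map_mul, e2', one_mul]; exact e5 j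
      · rw [map_mul]
        calc v (io (bb t)) * v (z j) ≤ 1 * 1 :=
              mul_le_mul (int_le_one v _) (e6 j) (apply_nonneg _ _) zero_le_one
          _ = 1 := one_mul 1
    · have h8 := lin_le v (a j0) (xx y z k t)
      rw [e7 j0, one_mul, D.lin_out k t (mem_compl.1 hj0), map_mul, e2', one_mul] at h8
      have h9 : v (lin (a j0) y) = 1 := e4 j0 (by simpa using hj0)
      rwa [h9] at h8
  obtain ⟨i, hi⟩ := hm
  unfold Meets at hi
  rw [hsv, e7 i, one_mul] at hi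
  by_cases hiA : i ∈ A
  · rw [D.lin_in k t hiA, map_mul, e3 i (by simpa using hiA), mul_one] at hi
    exact hi
  · rw [D.lin_out k t hiA, map_mul, e2', e4 i (by simpa using hiA), mul_one] at hi
    exact absurd hi (lt_irrefl _)

/-- lower bound of the height -/
lemma Dat.height_lower (D : Dat a A y z) : ∃ c : ℝ, 0 < c ∧ ∀ (k : ℕ) (t : Ix K → ℕ),
    ((2 : ℝ) ^ k) ^ Module.finrank ℚ K ≤ c * mulHeight (xx y z k t) := by
  obtain ⟨i0, hi0⟩ := D.ne
  obtain ⟨j0, hj0⟩ := D.ne'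
  have hj0' := mem_compl.1 hj0
  obtain ⟨c, hc, h⟩ := height_ratio ((lin (a j0) y)⁻¹ • a j0) ((lin (a i0) z)⁻¹ • a i0)
  refine ⟨c, hc, fun k t => le_trans ?_ (h (xx y z k t))⟩
  have hl : ∀ (s : K) (b x : Fin (n + 1) → K), lin (s • b) x = s * lin b x := by
    intro s b x
    simp only [lin, Pi.smul_apply, smul_eq_mul, mul_sum, mul_assoc]
  rw [hl, hl, D.lin_out k t hj0', D.lin_in k t hi0]
  have e1 : (lin (a j0) y)⁻¹ * (io ((2 : 𝓞 K) ^ k) * lin (a j0) y) = io ((2 : 𝓞 K) ^ k) := by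
    have := D.hy' j0 hj0'
    field_simp
  have e2 : (lin (a i0) z)⁻¹ * (io (bb t) * lin (a i0) z) = io (bb t) := by
    have := D.hz' i0 hi0
    field_simp
  rw [e1, e2, mulHeight₁_div_eq_mulHeight, height_pair (two_pow_ne k) (bb_coprime k t),
    ← InfinitePlace.sum_mult_eq, ← Finset.prod_pow_eq_pow_sum]
  apply prod_le_prod
  · intro w _; positivity
  intro w _
  apply pow_le_pow_left₀ (by positivity)
  refine le_trans (le_of_eq ?_) (le_max_left _ _)
  have h8 := w.norm_embedding_eq (2 : K)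
  rw [map_ofNat] at h8
  rw [map_pow, map_pow, map_ofNat, ← h8]
  norm_num

variable (y z) in
/-- upper bound of the height -/
lemma height_upper : ∃ c : ℝ, 0 < c ∧ ∀ (k : ℕ) (t : Ix K → ℕ) (T : ℝ), (2 : ℝ) ^ k ≤ T →
    (∀ w : InfinitePlace K, w (io (bb t)) ≤ T) →
    mulHeight (xx y z k t) ≤ c * T ^ Module.finrank ℚ K := by
  refine ⟨Nat.card (Fin 2) ^ totalWeight K *
    mulHeight (fun p : Fin (n + 1) × Fin 2 => (![y p.1, z p.1]) p.2), ?_, fun k t T hT hb => ?_⟩
  · have : 0 < Nat.card (Fin 2) := Nat.card_pos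
    positivity
  have h := mulHeight_linearMap_apply_le (fun p : Fin (n + 1) × Fin 2 => (![y p.1, z p.1]) p.2)
    ![(io ((2 : 𝓞 K) ^ k) : K), io (bb t)]
  have e : (fun j => ∑ i, (fun p : Fin (n + 1) × Fin 2 => (![y p.1, z p.1]) p.2) (j, i) *
      ![(io ((2 : 𝓞 K) ^ k) : K), io (bb t)] i) = xx y z k t := by
    ext j
    simp only [Fin.sum_univ_two, xx, Pi.add_apply, Pi.smul_apply, smul_eq_mul]
    simp [mul_comm]
  rw [e] at h
  refine h.trans ?_
  have hc0 : 0 ≤ (Nat.card (Fin 2) : ℝ) ^ totalWeight K *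
    mulHeight (fun p : Fin (n + 1) × Fin 2 => (![y p.1, z p.1]) p.2) := by positivity
  apply mul_le_mul_of_nonneg_left _ hc0
  rw [height_pair (two_pow_ne k) (bb_coprime k t), ← InfinitePlace.sum_mult_eq,
    ← Finset.prod_pow_eq_pow_sum]
  apply prod_le_prod
  · intro w _
    exact pow_nonneg (le_trans (apply_nonneg _ _) (le_max_left _ _)) _
  intro w _
  apply pow_le_pow_left₀ (le_trans (apply_nonneg _ _) (le_max_left _ _))
  apply max_le _ (hb w)
  refine le_trans (le_of_eq ?_) hT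
  have h8 := w.norm_embedding_eq (2 : K)
  rw [map_ofNat] at h8
  rw [map_pow, map_pow, map_ofNat, ← h8]
  norm_num

/-- different parameters give different points -/
lemma Dat.inj (D : Dat a A y z) {k : ℕ} {t t' : Ix K → ℕ}
    (h : Projectivization.mk K (xx y z k t) (D.x_ne k t) = Projectivization.mk K (xx y z k t') (D.x_ne k t')) :
    t = t' := by
  rw [Projectivization.mk_eq_mk_iff'] at h
  obtain ⟨u, hu⟩ := h
  obtain ⟨i0, hi0⟩ := D.ne
  obtain ⟨j0, hj0⟩ := D.ne'
  have hj0' := mem_compl.1 hj0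
  have h1 : u * lin (a j0) (xx y z k t') = lin (a j0) (xx y z k t) := by rw [← lin_smul, hu]
  have h2 : u * lin (a i0) (xx y z k t') = lin (a i0) (xx y z k t) := by rw [← lin_smul, hu]
  rw [D.lin_out k t hj0', D.lin_out k t' hj0'] at h1
  rw [D.lin_in k t hi0, D.lin_in k t' hi0] at h2
  have hu1 : u = 1 := by
    have h3 := mul_ne_zero (two_pow_ne k) (D.hy' j0 hj0')
    exact mul_right_cancel₀ h3 (by rw [h1, one_mul])
  rw [hu1, one_mul] at h2
  have h4 := mul_right_cancel₀ (D.hz' i0 hi0) h2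
  exact (bb_inj (RingOfIntegers.coe_injective h4)).symm

end

end Pool.Agent.H84.VH
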