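import Mathlib
import Pool.Agent.H84.VH.F3

/-!
# Points on the special subspaces: the lower bound
-/

set_option autoImplicit false

open NumberField Height Finset LinearAlgebra.Projectivization
open scoped Classical

namespace Pool.Agent.H84.VH

open Pool.Agent.H57R3.VJ

variable {K : Type*} [Field K] [NumberField K] {n r : ℕ}

lemma exists_Dat {a : Fin r → Fin (n + 1) → K} (ha : GenPos a) (hr1 : n + 2 ≤ r) (hr2 : r ≤ 2 * n) :
    ∃ (A : Finset (Fin r)) (y z : Fin (n + 1) → K), Dat a A y z := by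
  obtain ⟨A, hA1, hA2⟩ := Finset.exists_subset_card_eq (s := (univ : Finset (Fin r))) (n := n)
    (by rw [card_univ, Fintype.card_fin]; omega)
  have hAc : Aᶜ.card = r - n := by rw [card_compl, Fintype.card_fin, hA2]
  obtain ⟨y, hy1, hy2⟩ := generic ha (by omega) A (by omega)
  obtain ⟨z, hz1, hz2⟩ := generic ha (by omega) Aᶜ (by omega)
  refine ⟨A, y, z, hy1, hy2, fun i hi => hz1 i (mem_compl.2 hi), fun i hi => hz2 i (by simpa using hi), ?_, ?_⟩
  · rw [← card_pos]; omega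
  · rw [← card_pos]; omega

lemma calc_count {d k : ℕ} {B c θ : ℝ} (hc : 0 < c) (hθ0 : 0 ≤ θ) (hB : 0 < B)
    (h : B / c < ((2 : ℝ) ^ d) ^ (k + 1)) :
    (1 / 2 ^ d * (c * 2 ^ d) ^ (-θ)) * B ^ θ ≤ ((⌊((2 : ℝ) ^ k) ^ θ⌋₊ ^ d : ℕ) : ℝ) := by
  set u : ℝ := (2 : ℝ) ^ k with hu
  have hu1 : 1 ≤ u := one_le_pow₀ (by norm_num)
  have hu0 : 0 < u := by linarith
  have huθ : 1 ≤ u ^ θ := Real.one_le_rpow hu1 hθ0
  have h1 : u ^ θ / 2 ≤ (⌊u ^ θ⌋₊ : ℝ) := by
    have h2 := Nat.lt_floor_add_one (u ^ θ)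
    have h3 : (1 : ℝ) ≤ (⌊u ^ θ⌋₊ : ℝ) := by
      have : 1 ≤ ⌊u ^ θ⌋₊ := Nat.le_floor (by simpa using huθ)
      exact_mod_cast this
    linarith
  have h4 : (u ^ θ / 2) ^ d ≤ ((⌊u ^ θ⌋₊ ^ d : ℕ) : ℝ) := by
    push_cast
    exact pow_le_pow_left₀ (by positivity) h1 d
  refine le_trans ?_ h4
  have h5 : B / (c * 2 ^ d) ≤ u ^ d := by
    have h6 : ((2 : ℝ) ^ d) ^ (k + 1) = u ^ d * 2 ^ d := by
      rw [hu, ← pow_mul, ← pow_mul, ← pow_add]
      congr 1
      ring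
    rw [h6, div_lt_iff₀ hc] at h
    rw [div_le_iff₀ (by positivity)]
    linarith
  have h7 : (B / (c * 2 ^ d)) ^ θ ≤ (u ^ d) ^ θ := Real.rpow_le_rpow (by positivity) h5 hθ0
  have h8 : (u ^ d) ^ θ = (u ^ θ) ^ d := by
    rw [← Real.rpow_natCast, ← Real.rpow_natCast, ← Real.rpow_mul hu0.le, ← Real.rpow_mul hu0.le, mul_comm]
  rw [div_pow, ← h8]
  calc 1 / 2 ^ d * (c * 2 ^ d) ^ (-θ) * B ^ θ = (B / (c * 2 ^ d)) ^ θ / 2 ^ d := by
        rw [Real.div_rpow hB.le (by positivity), Real.rpow_neg (by positivity)]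
        field_simp
    _ ≤ _ := div_le_div_of_nonneg_right h7 (by positivity)

theorem lower {a : Fin r → Fin (n + 1) → K} (ha : GenPos a) (hr1 : n + 2 ≤ r) (hr2 : r ≤ 2 * n)
    (S : Finset (FinitePlace K)) (θ : ℝ) (hθ0 : 0 ≤ θ) (hθ1 : θ ≤ 1) :
    ∃ C m B0 : ℝ, 0 < m ∧ 1 ≤ B0 ∧ ∀ B : ℝ, B0 ≤ B → ∃ PP : Finset (ℙ K (Fin (n + 1) → K)),
      (∀ P ∈ PP, (∀ i, lin (a i) P.rep ≠ 0) ∧ Special a P.rep ∧ mulHeight P.rep ≤ B ∧
        N1 S a P.rep ≤ θ * Real.log (mulHeight P.rep) + C) ∧ m * B ^ θ ≤ PP.card := by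
  obtain ⟨A, y, z, D⟩ := exists_Dat ha hr1 hr2
  have ha0 := fun i => ha.ne_zero (by omega) i
  obtain ⟨c1, h1⟩ := D.counting ha0 S
  obtain ⟨c2, hc2, h2⟩ := D.height_lower
  obtain ⟨c3, hc3, h3⟩ := height_upper y z
  obtain ⟨c4, hc4, h4⟩ := bb_size K
  set d : ℕ := Module.finrank ℚ K with hd
  have hd0 : 0 < d := Module.finrank_pos
  have hc40 : 0 < c4 := by linarith
  set ch : ℝ := c3 * c4 ^ d + 1 with hch
  have hch1 : 1 ≤ ch := by
    have : 0 ≤ c3 * c4 ^ d := by positivity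
    linarith
  have hch0 : 0 < ch := by linarith
  refine ⟨c1 + d * Real.log c4 + θ * |Real.log c2|, 1 / 2 ^ d * (ch * 2 ^ d) ^ (-θ), ch, by positivity, hch1,
    fun B hB => ?_⟩
  have hB0 : 0 < B := by linarith
  have h2d : (1 : ℝ) < 2 ^ d := one_lt_pow₀ (by norm_num) hd0.ne'
  obtain ⟨k, hk1, hk2⟩ := exists_nat_pow_near (x := B / ch) (y := (2 : ℝ) ^ d)
    (by rw [le_div_iff₀ hch0, one_mul]; exact hB) h2d
  set u : ℝ := (2 : ℝ) ^ k with hu
  have hu1 : 1 ≤ u := one_le_pow₀ (by norm_num)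
  have hu0 : 0 < u := by linarith
  have huθ1 : 1 ≤ u ^ θ := Real.one_le_rpow hu1 hθ0
  have huθ : u ^ θ ≤ u := by
    calc u ^ θ ≤ u ^ (1 : ℝ) := Real.rpow_le_rpow_of_exponent_le hu1 hθ1
      _ = u := Real.rpow_one u
  set T : ℕ := ⌊u ^ θ⌋₊ with hT
  have hT1 : (T : ℝ) ≤ u ^ θ := Nat.floor_le (by positivity)
  set TT : Finset (Ix K → ℕ) := Fintype.piFinset fun _ => range T with hTT
  have hTTc : TT.card = T ^ d := by
    rw [hTT, Fintype.card_piFinset, Finset.prod_const, card_range, card_univ, card_Ix]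
  have hsize : ∀ t ∈ TT, ∀ w : InfinitePlace K, w (io (bb t)) ≤ c4 * u ^ θ := by
    intro t ht
    apply h4 (u ^ θ) t huθ1
    intro j
    have := mem_range.1 ((Fintype.mem_piFinset.1 ht) j)
    have h5 : ((t j : ℕ) : ℝ) ≤ T := by exact_mod_cast this.le
    exact h5.trans hT1
  set f : (Ix K → ℕ) → ℙ K (Fin (n + 1) → K) := fun t =>
    Projectivization.mk K (xx y z k t) (D.x_ne k t) with hf
  refine ⟨TT.image f, ?_, ?_⟩
  · intro P hP
    obtain ⟨t, ht, rfl⟩ := mem_image.1 hP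
    obtain ⟨s, hs⟩ := Projectivization.exists_smul_eq_mk_rep K (xx y z k t) (D.x_ne k t)
    have hs0 : (s : K) ≠ 0 := s.ne_zero
    have hrep : (f t).rep = (s : K) • xx y z k t := hs.symm
    have hmh : mulHeight (f t).rep = mulHeight (xx y z k t) := by
      rw [hrep, mulHeight_smul_eq_mulHeight _ hs0]
    have hN : N1 S a (f t).rep = N1 S a (xx y z k t) := by rw [hrep, N1_smul S a _ hs0]
    have hsz := hsize t ht
    have hc4u : 1 ≤ c4 * u ^ θ := one_le_mul_of_one_le_of_one_le hc4 huθ1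
    refine ⟨?_, ?_, ?_, ?_⟩
    · intro i
      rw [hrep, lin_smul]
      exact mul_ne_zero hs0 (D.lin_ne k t i)
    · rw [hrep]
      exact Special_smul a hs0 (D.special k t)
    · rw [hmh]
      have h5 := h3 k t (c4 * u) (by
        calc (2 : ℝ) ^ k = 1 * u := (one_mul _).symm
          _ ≤ c4 * u := mul_le_mul_of_nonneg_right hc4 hu0.le) (fun w =>
            (hsz w).trans (mul_le_mul_of_nonneg_left huθ hc40.le))
      refine h5.trans ?_
      have h6 : u ^ d = ((2 : ℝ) ^ d) ^ k := by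
        rw [hu, ← pow_mul, ← pow_mul, mul_comm]
      rw [mul_pow, ← mul_assoc, h6]
      rw [le_div_iff₀ hch0] at hk1
      have h7 : 0 ≤ ((2 : ℝ) ^ d) ^ k := by positivity
      calc c3 * c4 ^ d * ((2 : ℝ) ^ d) ^ k ≤ ch * ((2 : ℝ) ^ d) ^ k :=
            mul_le_mul_of_nonneg_right (by rw [hch]; linarith) h7
        _ = ((2 : ℝ) ^ d) ^ k * ch := mul_comm _ _
        _ ≤ B := hk1
    · rw [hmh, hN]
      refine (h1 k t).trans ?_
      have h5 : mulHeight₁ (io (bb t)) ≤ (c4 * u ^ θ) ^ d := height_int hc4u hsz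
      have h6 : Real.log (mulHeight₁ (io (bb t))) ≤ d * Real.log c4 + θ * (d * Real.log u) := by
        refine (Real.log_le_log (mulHeight₁_pos _) h5).trans (le_of_eq ?_)
        rw [Real.log_pow, Real.log_mul hc40.ne' (by positivity), Real.log_rpow hu0]
        ring
      have h7 : d * Real.log u ≤ Real.log c2 + Real.log (mulHeight (xx y z k t)) := by
        have h8 := h2 k t
        have h9 : 0 < mulHeight (xx y z k t) := mulHeight_pos _
        rw [← Real.log_mul hc2.ne' h9.ne', ← Real.log_pow]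
        exact Real.log_le_log (by positivity) h8
      have h8 := mul_le_mul_of_nonneg_left h7 hθ0
      have h9 := mul_le_mul_of_nonneg_left (le_abs_self (Real.log c2)) hθ0
      calc c1 + Real.log (mulHeight₁ (io (bb t))) ≤ c1 + (d * Real.log c4 + θ * (d * Real.log u)) := by linarith
        _ ≤ c1 + (d * Real.log c4 + θ * (Real.log c2 + Real.log (mulHeight (xx y z k t)))) := by linarith
        _ = θ * Real.log (mulHeight (xx y z k t)) + (c1 + d * Real.log c4 + θ * Real.log c2) := by ring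
        _ ≤ _ := by linarith
  · rw [card_image_of_injOn (fun t _ t' _ h => D.inj h), hTTc]
    exact calc_count hch0 hθ0 hB0 hk2

end Pool.Agent.H84.VH
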