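import Mathlib
import Pool.Agent.H84.VH.E
import Pool.Agent.H84.VH.F

/-!
# Exceptions on and off the special subspaces
-/

set_option autoImplicit false

open NumberField Height Finset LinearAlgebra.Projectivization
open scoped Classical

namespace Pool.Agent.H84.VH

open Pool.Agent.H57R3.VJ

section
variable {K : Type*} [Field K] [NumberField K] {n r : ℕ}

lemma indep_le {a : Fin r → Fin (n + 1) → K} (ha : GenPos a) (hr : n + 1 ≤ r) (A : Finset (Fin r))
    (hA : A.card ≤ n + 1) (c : Fin r → K) (h : ∑ i ∈ A, c i • a i = 0) : ∀ i ∈ A, c i = 0 := by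
  obtain ⟨I, hI1, _, hI2⟩ := Finset.exists_subsuperset_card_eq (s := A)
    (t := (univ : Finset (Fin r))) (n := n + 1) (subset_univ _) hA (by simpa using hr)
  have hli := ha I hI2
  rw [Fintype.linearIndependent_iff] at hli
  have h0 := hli (fun i : I => if i.1 ∈ A then c i.1 else 0) (by
    have e1 : ∑ i : I, (if i.1 ∈ A then c i.1 else 0) • a i.1 =
        ∑ i ∈ I, (if i ∈ A then c i else 0) • a i :=
      sum_coe_sort I (fun i => (if i ∈ A then c i else 0) • a i)
    rw [e1, ← sum_subset hI1 (by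
      intro i _ hi
      rw [if_neg hi, zero_smul]), ← h]
    apply sum_congr rfl
    intro i hi
    rw [if_pos hi])
  intro i hi
  have := h0 ⟨i, hI1 hi⟩
  simpa [hi] using this

lemma card_of_zero {a : Fin r → Fin (n + 1) → K} (ha : GenPos a) (A : Finset (Fin r))
    {y : Fin (n + 1) → K} (hy : y ≠ 0) (h : ∀ i ∈ A, lin (a i) y = 0) : A.card ≤ n := by
  by_contra hlt
  push Not at hlt
  obtain ⟨I, hI1, hI2⟩ := Finset.exists_subset_card_eq (Nat.succ_le_of_lt hlt)
  obtain ⟨c, hc⟩ := inv_coeff hI2 (ha I hI2)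
  apply hy
  ext j
  rw [hc y j]
  exact sum_eq_zero fun i _ => by rw [h i (hI1 i.2), mul_zero]

/-- the special points lie on finitely many hyperplanes -/
theorem special_proper {a : Fin r → Fin (n + 1) → K} (ha : GenPos a) (hr : n + 2 ≤ r) :
    ∃ F : Finset (Fin (n + 1) → K), (∀ b ∈ F, b ≠ 0) ∧
      ∀ x : Fin (n + 1) → K, Special a x → ∃ b ∈ F, lin b x = 0 := by
  have hnot : ¬ LinearIndependent K a := by
    intro h
    have := h.fintype_card_le_finrank
    rw [Module.finrank_fin_fun, Fintype.card_fin] at this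
    omega
  rw [Fintype.not_linearIndependent_iff] at hnot
  obtain ⟨c, hc, i0, hi0⟩ := hnot
  refine ⟨((univ : Finset (Finset (Fin r))).filter fun A => A.card ≤ n ∧ Aᶜ.card ≤ n).image
    (fun A => ∑ i ∈ A, c i • a i), ?_, ?_⟩
  · intro b hb h0
    obtain ⟨A, hA, rfl⟩ := mem_image.1 hb
    obtain ⟨_, hA1, hA2⟩ := mem_filter.1 hA
    have h1 := indep_le ha (by omega) A (by omega) c h0
    have h2 : ∑ i ∈ Aᶜ, c i • a i = 0 := by
      have := sum_add_sum_compl A (fun i => c i • a i)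
      rw [hc, h0, zero_add] at this
      exact this
    have h3 := indep_le ha (by omega) Aᶜ (by omega) c h2
    apply hi0
    by_cases hi : i0 ∈ A
    · exact h1 i0 hi
    · exact h3 i0 (mem_compl.2 hi)
  · rintro x ⟨A, y, z, hy, hz, rfl, h1, h2⟩
    have hA1 := card_of_zero ha A hy h1
    have hA2 := card_of_zero ha Aᶜ hz fun i hi => h2 i (mem_compl.1 hi)
    refine ⟨_, mem_image_of_mem _ (mem_filter.2 ⟨mem_univ A, hA1, hA2⟩), ?_⟩
    have e1 : lin (∑ i ∈ A, c i • a i) y = 0 := by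
      rw [lin_sum]
      exact sum_eq_zero fun i hi => by rw [h1 i hi, mul_zero]
    have e2 : lin (∑ i ∈ A, c i • a i) z = 0 := by
      have h3 : ∑ i ∈ A, c i • a i = - ∑ i ∈ Aᶜ, c i • a i := by
        rw [eq_neg_iff_add_eq_zero, sum_add_sum_compl, hc]
      have h4 : lin (∑ i ∈ Aᶜ, c i • a i) z = 0 := by
        rw [lin_sum]
        exact sum_eq_zero fun i hi => by rw [h2 i (mem_compl.1 hi), mul_zero]
      rw [h3]
      have h5 : lin (-∑ i ∈ Aᶜ, c i • a i) z = - lin (∑ i ∈ Aᶜ, c i • a i) z := by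
        simp [lin]
      rw [h5, h4, neg_zero]
    have h6 : lin (∑ i ∈ A, c i • a i) (y + z) = lin (∑ i ∈ A, c i • a i) y + lin (∑ i ∈ A, c i • a i) z := by
      simp [lin, mul_add, sum_add_distrib]
    rw [h6, e1, e2, add_zero]

end

lemma ratio_calc {off all : ℝ → ℝ} {θ ch δ M1 m B0 : ℝ} (hθ : 0 ≤ θ) (hch : 0 < ch) (hδ : 0 < δ)
    (hm : 0 < m) (hB0 : 1 ≤ B0) (h0 : ∀ B, 0 ≤ off B) (h1 : ∀ B, 1 ≤ B → off B ≤ all B)
    (h2 : ∀ B, 1 ≤ B → off B ≤ M1 * B ^ (θ * (1 - 1 / ch) + δ)) (h3 : ∀ B, B0 ≤ B → m * B ^ θ ≤ all B) :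
    ∃ M : ℝ, ∀ B, 1 ≤ B → off B ≤ M * B ^ (-(θ / ch) + δ) * all B := by
  refine ⟨|M1| / m + B0 ^ (θ / ch), fun B hB => ?_⟩
  have hB00 : 0 < B0 := by linarith
  have hB' : 0 < B := by linarith
  have hp : 0 < B ^ (-(θ / ch) + δ) := Real.rpow_pos_of_pos hB' _
  have hq : 0 < B0 ^ (θ / ch) := Real.rpow_pos_of_pos hB00 _
  have hM1 : 0 ≤ |M1| / m := by positivity
  have hall : 0 ≤ all B := (h0 B).trans (h1 B hB)
  rcases le_total B0 B with h | h
  · have e1 : B ^ (θ * (1 - 1 / ch) + δ) = B ^ (-(θ / ch) + δ) * B ^ θ := by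
      rw [← Real.rpow_add hB']
      congr 1
      ring
    have h4 := h3 B h
    calc off B ≤ M1 * B ^ (θ * (1 - 1 / ch) + δ) := h2 B hB
      _ = M1 * B ^ (-(θ / ch) + δ) * B ^ θ := by rw [e1]; ring
      _ ≤ |M1| * B ^ (-(θ / ch) + δ) * B ^ θ := by
          apply mul_le_mul_of_nonneg_right _ (Real.rpow_nonneg hB'.le _)
          exact mul_le_mul_of_nonneg_right (le_abs_self _) hp.le
      _ = |M1| / m * B ^ (-(θ / ch) + δ) * (m * B ^ θ) := by field_simp
      _ ≤ |M1| / m * B ^ (-(θ / ch) + δ) * all B :=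
          mul_le_mul_of_nonneg_left h4 (mul_nonneg hM1 hp.le)
      _ ≤ _ := by
          apply mul_le_mul_of_nonneg_right _ hall
          apply mul_le_mul_of_nonneg_right _ hp.le
          linarith
  · have h5 : 1 ≤ B0 ^ (θ / ch) * B ^ (-(θ / ch) + δ) := by
      have h6 : B0 ^ (-(θ / ch)) ≤ B ^ (-(θ / ch)) :=
        Real.rpow_le_rpow_of_nonpos hB' h (by have := div_nonneg hθ hch.le; linarith)
      have h7 : B ^ (-(θ / ch)) ≤ B ^ (-(θ / ch) + δ) :=
        Real.rpow_le_rpow_of_exponent_le hB (by linarith)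
      calc (1 : ℝ) = B0 ^ (θ / ch) * B0 ^ (-(θ / ch)) := by
            rw [← Real.rpow_add hB00, add_neg_cancel, Real.rpow_zero]
        _ ≤ B0 ^ (θ / ch) * B ^ (-(θ / ch) + δ) := mul_le_mul_of_nonneg_left (h6.trans h7) hq.le
    calc off B ≤ 1 * all B := by rw [one_mul]; exact h1 B hB
      _ ≤ (B0 ^ (θ / ch) * B ^ (-(θ / ch) + δ)) * all B := mul_le_mul_of_nonneg_right h5 hall
      _ ≤ _ := by
          apply mul_le_mul_of_nonneg_right _ hall
          apply mul_le_mul_of_nonneg_right _ hp.le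
          linarith

end Pool.Agent.H84.VH
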